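import Pool.Agent.MP_187b32_an.KK.BB
import Pool.Agent.MP_187b32_an.Pic.Need

/-! Algebra of the energy form on the torus, and a Gronwall lemma with an integrable rate. -/

set_option autoImplicit false

open MeasureTheory Pool.Agent.Boltz Finset

noncomputable section

namespace Pool.Agent.MP_187b32_an.Pic

open KK

variable {n : ℕ} {θ : ℝ} {ω σ : E3 → ℝ} {G G' H : E3 → SV}

lemma cont_bb {T : Type} [TopologicalSpace T] {σ : T → E3 → ℝ} {G H : T → E3 → SV}
    (hσ : Continuous fun p : T × E3 => σ p.1 p.2) (hG : SmC G) (hH : SmC H) :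
    Continuous fun p : T × E3 => bb n θ (σ p.1) (G p.1) (H p.1) p.2 := by
  unfold bb lev
  refine continuous_finsetSum _ fun j _ => continuous_finsetSum _ fun m _ => ?_
  refine (continuous_const.mul (hσ.pow _)).mul (continuous_finsetSum _ fun u _ => ?_)
  exact ((hG.dXw u).ip ((hH.dXw u).clm (RR m))).cont

lemma cont_En {ω σ : ℝ → E3 → ℝ} {G H : ℝ → E3 → SV}
    (hω : Continuous fun p : ℝ × E3 => ω p.1 p.2) (hσ : Continuous fun p : ℝ × E3 => σ p.1 p.2)
    (hG : SmC G) (hH : SmC H) : Continuous fun s => En n θ (ω s) (σ s) (G s) (H s) :=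
  continuous_tint (φ := fun s x => ω s x * bb n θ (σ s) (G s) (H s) x) (hω.mul (cont_bb hσ hG hH))

lemma cont_wbb (hω : Continuous ω) (hσ : Continuous σ) (hG : Sm G) (hH : Sm H) :
    Continuous fun x => ω x * bb n θ σ G H x := hω.mul (continuous_bb hσ hG hH)

lemma tint_le_one {φ ψ : E3 → ℝ} {a : ℝ} (hφ : Continuous φ) (hψ : Continuous ψ)
    (h : ∀ x, φ x ≤ a * ψ x) : tint φ ≤ a * tint ψ := by
  rw [← tint_const_mul]
  exact tint_mono hφ (by fun_prop) h

lemma tint_le_two {φ ψ χ : E3 → ℝ} {a b : ℝ} (hφ : Continuous φ) (hψ : Continuous ψ)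
    (hχ : Continuous χ) (h : ∀ x, φ x ≤ a * ψ x + b * χ x) :
    tint φ ≤ a * tint ψ + b * tint χ := by
  rw [← tint_const_mul, ← tint_const_mul, ← tint_add (by fun_prop) (by fun_prop)]
  exact tint_mono hφ (by fun_prop) h

lemma bb_zero_left (x : E3) : bb n θ σ (fun _ => 0) H x = 0 := by
  simp [bb, lev, dXw_zero]

lemma bb_neg_left (hG : Sm G) (x : E3) : bb n θ σ (fun y => -G y) H x = -bb n θ σ G H x := by
  simpa using bb_smul_left (n := n) (θ := θ) (σ := σ) (H := H) hG (-1) x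

lemma bb_sub_left (hG : Sm G) (hG' : Sm G') (x : E3) :
    bb n θ σ (fun y => G y - G' y) H x = bb n θ σ G H x - bb n θ σ G' H x := by
  simp only [sub_eq_add_neg]
  rw [bb_add_left hG hG'.neg, bb_neg_left hG']

lemma two_bb_le (hθ : 0 ≤ θ) {t : ℝ} (ht : 0 < t) (x : E3) :
    2 * bb n θ σ G H x ≤ t * bb n θ σ H H x + bb n θ σ G G x / t := by
  have h := bb_sq_le (n := n) (σ := σ) (G := G) (H := H) hθ x
  have h1 := bb_nonneg (n := n) (σ := σ) (G := G) hθ x
  have h2 := bb_nonneg (n := n) (σ := σ) (G := H) hθ x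
  set a := bb n θ σ G G x
  set b := bb n θ σ H H x
  set c := bb n θ σ G H x
  have h3 : (2 * c) ^ 2 ≤ (t * b + a / t) ^ 2 := by
    have e : (t * b + a / t) ^ 2 = (t * b - a / t) ^ 2 + 4 * (a * b) := by field_simp; ring
    nlinarith [sq_nonneg (t * b - a / t)]
  exact (abs_le_of_sq_le_sq' h3 (by positivity)).2

lemma bb_add_le (hθ : 0 ≤ θ) (hG : Sm G) (hH : Sm H) (x : E3) :
    bb n θ σ (fun y => G y + H y) (fun y => G y + H y) x
      ≤ 2 * bb n θ σ G G x + 2 * bb n θ σ H H x := by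
  have h := two_bb_le (n := n) (σ := σ) (G := G) (H := H) hθ one_pos x
  rw [bb_add_left hG hH, bb_comm (G := G), bb_comm (G := H), bb_add_left hG hH, bb_add_left hG hH,
    bb_comm (G := H) (H := G)]
  linarith

lemma bb_smul_smul (hG : Sm G) (a : ℝ) (x : E3) :
    bb n θ σ (fun y => a • G y) (fun y => a • G y) x = a ^ 2 * bb n θ σ G G x := by
  rw [bb_smul_left hG, bb_comm, bb_smul_left hG]
  ring

lemma En_comm : En n θ ω σ G H = En n θ ω σ H G := tint_congr fun x => by rw [bb_comm]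

lemma En_nonneg (hθ : 0 ≤ θ) (hω : ∀ x, 0 ≤ ω x) : 0 ≤ En n θ ω σ G G :=
  tint_nonneg fun x => mul_nonneg (hω x) (bb_nonneg hθ x)

lemma En_zero_left : En n θ ω σ (fun _ => 0) H = 0 := by simp [En, bb_zero_left]

lemma En_smul_left (hG : Sm G) (a : ℝ) : En n θ ω σ (fun y => a • G y) H = a * En n θ ω σ G H := by
  rw [En, En, ← tint_const_mul]
  exact tint_congr fun x => by rw [bb_smul_left hG]; ring

lemma En_smul_smul (hG : Sm G) (a : ℝ) :
    En n θ ω σ (fun y => a • G y) (fun y => a • G y) = a ^ 2 * En n θ ω σ G G := by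
  rw [En, En, ← tint_const_mul]
  exact tint_congr fun x => by rw [bb_smul_smul hG]; ring

lemma En_neg_neg (hG : Sm G) : En n θ ω σ (fun y => -G y) (fun y => -G y) = En n θ ω σ G G := by
  simpa using En_smul_smul (n := n) (θ := θ) (ω := ω) (σ := σ) hG (-1)

lemma En_add_left (hω : Continuous ω) (hσ : Continuous σ) (hG : Sm G) (hG' : Sm G') (hH : Sm H) :
    En n θ ω σ (fun y => G y + G' y) H = En n θ ω σ G H + En n θ ω σ G' H := by
  rw [En, En, En, ← tint_add (cont_wbb hω hσ hG hH) (cont_wbb hω hσ hG' hH)]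
  exact tint_congr fun x => by rw [bb_add_left hG hG']; ring

lemma En_sub_left (hω : Continuous ω) (hσ : Continuous σ) (hG : Sm G) (hG' : Sm G') (hH : Sm H) :
    En n θ ω σ (fun y => G y - G' y) H = En n θ ω σ G H - En n θ ω σ G' H := by
  rw [En, En, En, ← tint_sub (cont_wbb hω hσ hG hH) (cont_wbb hω hσ hG' hH)]
  exact tint_congr fun x => by rw [bb_sub_left hG hG']; ring

lemma En_sum_left (hω : Continuous ω) (hσ : Continuous σ) {ι : Type} (S : Finset ι)
    {G : ι → E3 → SV} (hG : ∀ i, Sm (G i)) (hH : Sm H) (a : ι → ℝ) :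
    En n θ ω σ (fun y => ∑ i ∈ S, a i • G i y) H = ∑ i ∈ S, a i * En n θ ω σ (G i) H := by
  classical
  induction S using Finset.induction_on with
  | empty => simpa using En_zero_left
  | insert i S hi ih =>
    simp only [sum_insert hi]
    rw [En_add_left hω hσ ((hG i).const_smul _) (Sm.sum S fun j _ => (hG j).const_smul _) hH, ih,
      En_smul_left (hG i)]

lemma En_add_le (hθ : 0 ≤ θ) (hω : Continuous ω) (hω0 : ∀ x, 0 ≤ ω x) (hσ : Continuous σ)
    (hG : Sm G) (hH : Sm H) : En n θ ω σ (fun y => G y + H y) (fun y => G y + H y)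
      ≤ 2 * En n θ ω σ G G + 2 * En n θ ω σ H H := by
  refine tint_le_two (cont_wbb hω hσ (hG.add hH) (hG.add hH)) (cont_wbb hω hσ hG hG)
    (cont_wbb hω hσ hH hH) fun x => ?_
  have := mul_le_mul_of_nonneg_left (bb_add_le (n := n) (σ := σ) hθ hG hH x) (hω0 x)
  linarith

lemma En_sub_le (hθ : 0 ≤ θ) (hω : Continuous ω) (hω0 : ∀ x, 0 ≤ ω x) (hσ : Continuous σ)
    (hG : Sm G) (hH : Sm H) : En n θ ω σ (fun y => G y - H y) (fun y => G y - H y)
      ≤ 2 * En n θ ω σ G G + 2 * En n θ ω σ H H := by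
  have := En_add_le (n := n) hθ hω hω0 hσ hG hH.neg
  rw [En_neg_neg hH] at this
  simpa only [sub_eq_add_neg] using this

lemma En_sq_le (hθ : 0 ≤ θ) (hω : Continuous ω) (hω0 : ∀ x, 0 ≤ ω x) (hσ : Continuous σ)
    (hG : Sm G) (hH : Sm H) : En n θ ω σ G H ^ 2 ≤ En n θ ω σ G G * En n θ ω σ H H := by
  have h := abs_tint_le_sqrt (φ := fun x => ω x * bb n θ σ G H x)
    (cont_wbb (n := n) (θ := θ) hω hσ hG hG) (cont_wbb (n := n) (θ := θ) hω hσ hH hH)
    (fun x => mul_nonneg (hω0 x) (bb_nonneg hθ x)) (fun x => mul_nonneg (hω0 x) (bb_nonneg hθ x))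
    fun x => by
      rw [← Real.sqrt_mul (mul_nonneg (hω0 x) (bb_nonneg hθ x))]
      refine Real.abs_le_sqrt ?_
      have := mul_le_mul_of_nonneg_left (bb_sq_le (n := n) (σ := σ) (G := G) (H := H) hθ x)
        (sq_nonneg (ω x))
      nlinarith
  have h2 : |En n θ ω σ G H| ^ 2 ≤ (√(En n θ ω σ G G) * √(En n θ ω σ H H)) ^ 2 :=
    pow_le_pow_left₀ (abs_nonneg _) h 2
  rwa [sq_abs, mul_pow, Real.sq_sqrt (En_nonneg hθ hω0), Real.sq_sqrt (En_nonneg hθ hω0)] at h2

lemma En_le_of_le {n' : ℕ} {θ' a : ℝ} {ω' : E3 → ℝ} (hω : Continuous ω) (hω' : Continuous ω')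
    (hσ : Continuous σ) (hG : Sm G) (hH : Sm H)
    (h : ∀ x, ω x * bb n θ σ G G x ≤ a * (ω' x * bb n' θ' σ H H x)) :
    En n θ ω σ G G ≤ a * En n' θ' ω' σ H H :=
  tint_le_one (cont_wbb hω hσ hG hG) (cont_wbb hω' hσ hH hH) h

lemma integral_exp_le {ρ s0 s : ℝ} (hρ : 0 < ρ) :
    ∫ t in s0..s, Real.exp (-ρ * t) ≤ Real.exp (-ρ * s0) / ρ := by
  have h : ∀ t, HasDerivAt (fun t => -Real.exp (-ρ * t) / ρ) (Real.exp (-ρ * t)) t := fun t => by
    have := (((hasDerivAt_id t).const_mul (-ρ)).exp.neg).div_const ρ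
    refine this.congr_deriv ?_
    simp only [id]
    field_simp
  rw [intervalIntegral.integral_eq_sub_of_hasDerivAt (fun t _ => h t)
    (Continuous.intervalIntegrable (by fun_prop) _ _)]
  have := div_pos (Real.exp_pos (-ρ * s)) hρ
  rw [neg_div, neg_div]
  linarith

/-- Gronwall inequality with the integrable rate `ρ exp (-ρ s)`. -/
lemma gronwall {E E' D F : ℝ → ℝ} {ρ s0 : ℝ} (hρ : 0 < ρ) (hs0 : 0 ≤ s0) (hE' : Continuous E')
    (hD : Continuous D) (hF : Continuous F) (hd : ∀ s, HasDerivAt E (E' s) s) (hE0 : ∀ s, 0 ≤ E s)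
    (hD0 : ∀ s, 0 ≤ D s) (hF0 : ∀ s, s0 ≤ s → 0 ≤ F s)
    (h : ∀ s, s0 ≤ s → E' s + D s ≤ ρ * Real.exp (-ρ * s) * E s + F s) {s : ℝ} (hs : s0 ≤ s) :
    E s + ∫ t in s0..s, D t ≤ 3 * E s0 + 3 * ∫ t in s0..s, F t := by
  have hE : Continuous E := continuous_iff_continuousAt.2 fun t => (hd t).continuousAt
  set w : ℝ → ℝ := fun t => Real.exp (Real.exp (-ρ * t)) with hw
  have w1 : ∀ t, 1 ≤ w t := fun t => Real.one_le_exp (Real.exp_pos _).le
  have w3 : ∀ t, s0 ≤ t → w t ≤ 3 := fun t ht => by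
    have : Real.exp (-ρ * t) ≤ 1 := Real.exp_le_one_iff.2 (by nlinarith)
    exact (Real.exp_le_exp.2 this).trans (Real.exp_one_lt_d9.le.trans (by norm_num))
  have hwd : ∀ t, HasDerivAt (fun t => w t * E t)
      (w t * (E' t - ρ * Real.exp (-ρ * t) * E t)) t := fun t => by
    have := ((((hasDerivAt_id t).const_mul (-ρ)).exp).exp).mul (hd t)
    refine this.congr_deriv ?_
    simp only [id, hw]
    ring
  have hc : Continuous fun t => w t * (E' t - ρ * Real.exp (-ρ * t) * E t) := by fun_prop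
  have h1 := intervalIntegral.integral_eq_sub_of_hasDerivAt (a := s0) (b := s) (fun t _ => hwd t)
    (hc.intervalIntegrable _ _)
  have h2 : ∫ t in s0..s, w t * (E' t - ρ * Real.exp (-ρ * t) * E t)
      ≤ ∫ t in s0..s, (3 * F t - D t) := by
    refine intervalIntegral.integral_mono_on hs (hc.intervalIntegrable _ _)
      (Continuous.intervalIntegrable (by fun_prop) _ _) fun t ht => ?_
    have a1 := h t ht.1
    have a2 := mul_le_mul_of_nonneg_left (show E' t - ρ * Real.exp (-ρ * t) * E t ≤ F t - D t by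
      linarith) (zero_le_one.trans (w1 t))
    nlinarith [w1 t, w3 t ht.1, hD0 t, hF0 t ht.1]
  rw [intervalIntegral.integral_sub (Continuous.intervalIntegrable (by fun_prop) _ _)
    (hD.intervalIntegrable _ _), intervalIntegral.integral_const_mul] at h2
  nlinarith [w1 s, w3 s0 le_rfl, hE0 s, hE0 s0]

end Pool.Agent.MP_187b32_an.Pic
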