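import Pool.Agent.MP_187b32_an.Pic.LimA
import Pool.Agent.MP_187b32_an.Calc.XSob
import Pool.Agent.MP_187b32_an.Coll.C1

/-! Weighted uniform convergence on compact time intervals. -/

set_option autoImplicit false

open Filter Topology Pool.Agent.Boltz Set

noncomputable section

namespace Pool.Agent.MP_187b32_an.PicLim

open Coll

/-- Scalar functions of `(s, x, V)`. -/
abbrev Fn := ℝ → E3 → E3 → ℝ

/-- Weighted uniform convergence on compact time intervals. -/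
def Cv (s0 : ℝ) (p : ℕ) (φ : ℕ → Fn) (ψ : Fn) : Prop :=
  ∀ s1 δ : ℝ, 0 < δ → ∀ᶠ N in atTop, ∀ s ∈ Icc s0 s1, ∀ x V : E3,
    (1 + ‖V‖) ^ p * |φ N s x V - ψ s x V| ≤ δ

/-- Weighted bound on compact time intervals. -/
def Bd (s0 : ℝ) (p : ℕ) (ψ : Fn) : Prop :=
  ∀ s1 : ℝ, ∃ K : ℝ, ∀ s ∈ Icc s0 s1, ∀ x V : E3, (1 + ‖V‖) ^ p * |ψ s x V| ≤ K

variable {s0 : ℝ} {p : ℕ} {φ φ' : ℕ → Fn} {ψ ψ' : Fn}

lemma Cv.const (ψ : Fn) : Cv s0 p (fun _ => ψ) ψ :=
  fun _ δ hδ => Eventually.of_forall fun _ _ _ _ _ => by simpa using hδ.le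

lemma Cv.mono {p' : ℕ} (h : Cv s0 p φ ψ) (hp : p' ≤ p) : Cv s0 p' φ ψ := by
  intro s1 δ hδ
  filter_upwards [h s1 δ hδ] with N hN s hs x V
  refine le_trans ?_ (hN s hs x V)
  gcongr
  linarith [norm_nonneg V]

lemma Cv.congr (h : Cv s0 p φ ψ) (e : ∀ N s, s0 ≤ s → ∀ x V, φ N s x V = φ' N s x V) :
    Cv s0 p φ' ψ := by
  intro s1 δ hδ
  filter_upwards [h s1 δ hδ] with N hN s hs x V
  rw [← e N s hs.1]
  exact hN s hs x V

lemma Cv.shift (h : Cv s0 p φ ψ) : Cv s0 p (fun N => φ (N + 1)) ψ :=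
  fun s1 δ hδ => (tendsto_add_atTop_nat 1).eventually (h s1 δ hδ)

lemma Cv.add (h : Cv s0 p φ ψ) (h' : Cv s0 p φ' ψ') :
    Cv s0 p (fun N s x V => φ N s x V + φ' N s x V) fun s x V => ψ s x V + ψ' s x V := by
  intro s1 δ hδ
  filter_upwards [h s1 (δ / 2) (by positivity), h' s1 (δ / 2) (by positivity)]
    with N h1 h2 s hs x V
  have a := abs_add_le (φ N s x V - ψ s x V) (φ' N s x V - ψ' s x V)
  have b := mul_le_mul_of_nonneg_left a (wt_pos V p).le
  rw [show φ N s x V + φ' N s x V - (ψ s x V + ψ' s x V) =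
    φ N s x V - ψ s x V + (φ' N s x V - ψ' s x V) by ring]
  linarith [h1 s hs x V, h2 s hs x V]

lemma Cv.coef (h : Cv s0 p φ ψ) {a : ℝ → E3 → ℝ} (ha : SmC a) (pa : ∀ s, Per (a s)) :
    Cv s0 p (fun N s x V => a s x * φ N s x V) fun s x V => a s x * ψ s x V := by
  intro s1 δ hδ
  obtain ⟨C, hC, hb⟩ := exists_bound_of_per ha.cont pa (isCompact_Icc (a := s0) (b := s1))
  filter_upwards [h s1 (δ / C) (by positivity)] with N h1 s hs x V
  rw [← mul_sub, abs_mul, mul_left_comm]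
  refine (mul_le_mul (hb s hs x) (h1 s hs x V) (by positivity) hC.le).trans (le_of_eq ?_)
  field_simp

lemma Cv.const_mul (h : Cv s0 p φ ψ) (c : ℝ) :
    Cv s0 p (fun N s x V => c * φ N s x V) fun s x V => c * ψ s x V :=
  h.coef (SmC.const c) fun _ => Per.const c

lemma Cv.neg (h : Cv s0 p φ ψ) :
    Cv s0 p (fun N s x V => -φ N s x V) fun s x V => -ψ s x V := by
  simpa using h.const_mul (-1)

lemma Cv.sub (h : Cv s0 p φ ψ) (h' : Cv s0 p φ' ψ') :
    Cv s0 p (fun N s x V => φ N s x V - φ' N s x V) fun s x V => ψ s x V - ψ' s x V := by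
  simpa [sub_eq_add_neg] using h.add h'.neg

lemma Cv.sum {ι : Type*} (S : Finset ι) {φ : ι → ℕ → Fn} {ψ : ι → Fn}
    (h : ∀ i, Cv s0 p (φ i) (ψ i)) :
    Cv s0 p (fun N s x V => ∑ i ∈ S, φ i N s x V) fun s x V => ∑ i ∈ S, ψ i s x V := by
  classical
  induction S using Finset.induction_on with
  | empty => simpa using Cv.const fun _ _ _ => 0
  | insert j S hj ih => simpa [Finset.sum_insert hj] using (h j).add ih

lemma Cv.coord (h : Cv s0 (p + 1) φ ψ) (i : Fin 3) :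
    Cv s0 p (fun N s x V => V i * φ N s x V) fun s x V => V i * ψ s x V := by
  intro s1 δ hδ
  filter_upwards [h s1 δ hδ] with N h1 s hs x V
  refine le_trans ?_ (h1 s hs x V)
  rw [← mul_sub, abs_mul, pow_succ, mul_assoc]
  have : |V i| ≤ 1 + ‖V‖ := by
    have := PiLp.norm_apply_le V i
    rw [Real.norm_eq_abs] at this
    linarith
  gcongr

lemma Cv.tendsto (h : Cv s0 p φ ψ) {s : ℝ} (hs : s0 ≤ s) (x V : E3) :
    Tendsto (fun N => φ N s x V) atTop (𝓝 (ψ s x V)) := by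
  refine Metric.tendsto_nhds.2 fun ε hε => ?_
  filter_upwards [h.mono (Nat.zero_le _) s (ε / 2) (by positivity)] with N hN
  have := hN s ⟨hs, le_rfl⟩ x V
  rw [pow_zero, one_mul] at this
  rw [Real.dist_eq]
  linarith

lemma Cv.bd (h : Cv s0 p φ ψ) (hb : ∀ N, Bd s0 p (φ N)) : Bd s0 p ψ := by
  intro s1
  obtain ⟨N, hN⟩ := (h s1 1 one_pos).exists
  obtain ⟨K, hK⟩ := hb N s1
  refine ⟨K + 1, fun s hs x V => ?_⟩
  have a := abs_sub (φ N s x V) (φ N s x V - ψ s x V)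
  have b := mul_le_mul_of_nonneg_left a (wt_pos V p).le
  rw [sub_sub_cancel] at b
  linarith [hN s hs x V, hK s hs x V]

lemma bd_of_smC {Φ : ℝ → E3 → SV} (h : SmC Φ) (hp : ∀ s, Per (Φ s)) (s0 : ℝ) (p : ℕ) :
    Bd s0 p fun s x V => Φ s x V := by
  intro s1
  obtain ⟨C, hC, h1⟩ := weighted_le_nA p
  obtain ⟨D, -, h2⟩ := exists_bound_nA h.cont hp (p + 3) (isCompact_Icc (a := s0) (b := s1))
  refine ⟨C * √D, fun s hs x V => (h1 _ V).1.trans ?_⟩
  gcongr
  exact h2 s hs x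

lemma exists_cv (h : ∀ s1 δ : ℝ, 0 < δ → ∃ J, ∀ j, J ≤ j → ∀ l, J ≤ l → ∀ s ∈ Icc s0 s1,
    ∀ x V : E3, (1 + ‖V‖) ^ p * |φ j s x V - φ l s x V| ≤ δ) : ∃ ψ, Cv s0 p φ ψ := by
  refine ⟨fun s x V => limUnder atTop fun N => φ N s x V, fun s1 δ hδ => ?_⟩
  obtain ⟨J, hJ⟩ := h s1 δ hδ
  filter_upwards [eventually_ge_atTop J] with N hN s hs x V
  have c1 : CauchySeq fun N => φ N s x V := by
    refine Metric.cauchySeq_iff.2 fun ε hε => ?_
    obtain ⟨J', hJ'⟩ := h s1 (ε / 2) (by positivity)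
    refine ⟨J', fun a ha b hb => ?_⟩
    have := (le_mul_of_one_le_left (abs_nonneg _) (one_le_wt V p)).trans (hJ' a ha b hb s hs x V)
    rw [Real.dist_eq]
    linarith
  refine le_of_tendsto ((tendsto_const_nhds.sub c1.tendsto_limUnder).abs.const_mul _) ?_
  filter_upwards [eventually_ge_atTop J] with l hl using hJ N hN l hl s hs x V

/-! ### Convergence in the class `Nice` -/

lemma nice_of_tendsto {K : ℝ} {f : ℕ → E3 → ℝ} {h : E3 → ℝ}
    (ht : ∀ v, Tendsto (fun N => f N v) atTop (𝓝 (h v))) (hf : ∀ᶠ N in atTop, Nice p K (f N)) :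
    Nice p K h :=
  ⟨fun v => le_of_tendsto ((ht v).abs.const_mul _) (hf.mono fun _ t => t.1 v),
    fun v z hz => le_of_tendsto (((ht (v + z)).sub (ht v)).abs.const_mul _)
      (hf.mono fun _ t => t.2 v z hz)⟩

lemma norm_fderiv_le (f : SV) (V : E3) : ‖fderiv ℝ f V‖ ≤ ∑ j, |dV j f V| := by
  rw [fderiv_eq_sum]
  refine (norm_sum_le _ _).trans (Finset.sum_le_sum fun j _ => ?_)
  rw [norm_smul, Real.norm_eq_abs, dV_apply]
  refine mul_le_of_le_one_right (abs_nonneg _)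
    (ContinuousLinearMap.opNorm_le_bound _ zero_le_one fun v => ?_)
  rw [one_mul]
  exact PiLp.norm_apply_le v j

/-- Convergence in the class `Nice`. -/
def NCv (s0 : ℝ) (p : ℕ) (φ : ℕ → Fn) (ψ : Fn) : Prop :=
  ∀ s1 δ : ℝ, 0 < δ → ∀ᶠ N in atTop, ∀ s ∈ Icc s0 s1, ∀ x : E3,
    Nice p δ fun V => φ N s x V - ψ s x V

/-- Bound in the class `Nice`. -/
def NBd (s0 : ℝ) (p : ℕ) (ψ : Fn) : Prop :=
  ∀ s1 : ℝ, ∃ K : ℝ, ∀ s ∈ Icc s0 s1, ∀ x : E3, Nice p K (ψ s x)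

lemma NCv.const (ψ : Fn) : NCv s0 p (fun _ => ψ) ψ :=
  fun _ δ hδ => Eventually.of_forall fun _ _ _ _ => by
    simpa using (nice_zero (p := p)).mono_const hδ.le

lemma NCv.shift (h : NCv s0 p φ ψ) : NCv s0 p (fun N => φ (N + 1)) ψ :=
  fun s1 δ hδ => (tendsto_add_atTop_nat 1).eventually (h s1 δ hδ)

lemma ncv_of_cv {g : ℕ → ℝ → E3 → SV} {χ : Fin 3 → Fn}
    (h : Cv s0 p (fun N s x V => g N s x V) ψ)
    (h' : ∀ j, Cv s0 p (fun N s x V => dV j (g N s x) V) (χ j)) :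
    NCv s0 p (fun N s x V => g N s x V) ψ := by
  intro s1 δ hδ
  have h1 := (h s1 (δ / (6 * 2 ^ p)) (by positivity)).and
    (eventually_all.2 fun j => h' j s1 (δ / (6 * 2 ^ p)) (by positivity))
  filter_upwards [h1] with a ha s hs x
  refine nice_of_tendsto (f := fun b V => (g a s x - g b s x) V)
    (fun V => tendsto_const_nhds.sub (h.tendsto hs.1 x V)) ?_
  filter_upwards [h1] with b hb
  have tri : ∀ (u v w : ℝ) (V : E3), (1 + ‖V‖) ^ p * |u - w| ≤ δ / (6 * 2 ^ p) →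
      (1 + ‖V‖) ^ p * |v - w| ≤ δ / (6 * 2 ^ p) →
      (1 + ‖V‖) ^ p * |u - v| ≤ 2 * (δ / (6 * 2 ^ p)) := by
    intro u v w V h1 h2
    have := mul_le_mul_of_nonneg_left (abs_sub (u - w) (v - w)) (wt_pos V p).le
    rw [sub_sub_sub_cancel_right] at this
    linarith
  have e : δ = 2 ^ p * (6 * (δ / (6 * 2 ^ p))) := by field_simp
  have d0 : 0 < δ / (6 * 2 ^ p) := by positivity
  rw [e]
  refine nice_of_fderiv (g a s x - g b s x).differentiable (fun V => ?_) fun V => ?_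
  · have := tri _ _ _ V (ha.1 s hs x V) (hb.1 s hs x V)
    rw [sub_apply]
    linarith
  · refine (mul_le_mul_of_nonneg_left (norm_fderiv_le _ V) (wt_pos V p).le).trans ?_
    rw [Finset.mul_sum, Fin.sum_univ_three]
    simp only [map_sub, sub_apply]
    linarith [tri _ _ _ V (ha.2 0 s hs x V) (hb.2 0 s hs x V),
      tri _ _ _ V (ha.2 1 s hs x V) (hb.2 1 s hs x V),
      tri _ _ _ V (ha.2 2 s hs x V) (hb.2 2 s hs x V)]

lemma abs_Gam_le' {Kg Kh : ℝ} {g h : E3 → ℝ} (Hg : Nice (p + 9) Kg g) (Hh : Nice (p + 9) Kh h)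
    (v : E3) : (1 + ‖v‖) ^ p * |Gam g h v| ≤ cG * 2 ^ (p + 10) * Kg * Kh := by
  have := abs_Gam_le Hg Hh v
  rw [pow_add, mul_right_comm] at this
  exact le_of_mul_le_mul_right this (wt_pos v 9)

lemma cv_Gam (h : NCv s0 (p + 9) φ ψ) (h' : NCv s0 (p + 9) φ' ψ') (b : NBd s0 (p + 9) ψ)
    (b' : NBd s0 (p + 9) ψ') :
    Cv s0 p (fun N s x V => Gam (φ N s x) (φ' N s x) V) fun s x V => Gam (ψ s x) (ψ' s x) V := by
  intro s1 δ hδ
  obtain ⟨K, hK⟩ := b s1
  obtain ⟨K', hK'⟩ := b' s1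
  have c0 := cG_pos
  set L := |K| + |K'| + 1 with hL
  have L0 : 0 < L := by positivity
  set τ := min 1 (δ / (2 * (cG * 2 ^ (p + 10) * L))) with hτ
  have τ0 : 0 < τ := by positivity
  filter_upwards [h s1 τ τ0, h' s1 τ τ0] with N h1 h2 s hs x V
  have n1 : Nice (p + 9) L (ψ s x) := (hK s hs x).mono_const (by
    linarith [le_abs_self K, abs_nonneg K'])
  have n2 : Nice (p + 9) L (φ' N s x) := by
    have := ((h2 s hs x).add (hK' s hs x)).mono_const (K' := L) (by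
      linarith [le_abs_self K', abs_nonneg K, min_le_left 1 (δ / (2 * (cG * 2 ^ (p + 10) * L)))])
    simpa using this
  have n3 : Nice (p + 9) (τ + L) (φ N s x) := by simpa using (h1 s hs x).add n1
  have e1 := Gam_sub_left n3 n1 n2 V
  have e2 := Gam_sub_right n1 n2 (hK' s hs x) V
  have a1 := abs_Gam_le' (h1 s hs x) n2 V
  have a2 := abs_Gam_le' n1 (h2 s hs x) V
  have a3 := mul_le_mul_of_nonneg_left (abs_add_le
    (Gam (fun V => φ N s x V - ψ s x V) (φ' N s x) V)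
    (Gam (ψ s x) (fun V => φ' N s x V - ψ' s x V) V)) (wt_pos V p).le
  rw [e1, e2, sub_add_sub_cancel, ← e1, ← e2] at a3
  have a4 : τ * (2 * (cG * 2 ^ (p + 10) * L)) ≤ δ :=
    (le_div_iff₀ (by positivity)).1 (min_le_right _ _)
  nlinarith

/-! ### Extension to negative times -/

/-- Odd reflection in time. -/
def odd (s0 : ℝ) (ψ : Fn) (q : ℝ × E3 × E3) : ℝ :=
  ψ (max q.1 s0) q.2.1 q.2.2 + ψ s0 q.2.1 q.2.2 - ψ (max (2 * s0 - q.1) s0) q.2.1 q.2.2

/-- Even reflection in time. -/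
def even (s0 : ℝ) (ψ : Fn) (q : ℝ × E3 × E3) : ℝ := ψ (s0 + |q.1 - s0|) q.2.1 q.2.2

lemma odd_of_le (ψ : Fn) {s : ℝ} (hs : s0 ≤ s) (x V : E3) : odd s0 ψ (s, x, V) = ψ s x V := by
  simp only [odd]
  rw [max_eq_left hs, max_eq_right (by linarith)]
  ring

lemma even_of_le (ψ : Fn) {s : ℝ} (hs : s0 ≤ s) (x V : E3) : even s0 ψ (s, x, V) = ψ s x V := by
  simp only [even]
  rw [abs_of_nonneg (by linarith), add_sub_cancel]

lemma Cv.reparam (h : Cv s0 p φ ψ) {r : ℝ → ℝ} (hr : Continuous r) (h0 : ∀ s, s0 ≤ r s) :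
    TendstoLocallyUniformly (fun N (q : ℝ × E3 × E3) => φ N (r q.1) q.2.1 q.2.2)
      (fun q => ψ (r q.1) q.2.1 q.2.2) atTop := by
  refine Metric.tendstoLocallyUniformly_iff.2 fun ε hε q => ?_
  refine ⟨{y | r y.1 < r q.1 + 1}, (isOpen_lt (hr.comp continuous_fst) continuous_const).mem_nhds
    (by simp), ?_⟩
  filter_upwards [h.mono (Nat.zero_le _) (r q.1 + 1) (ε / 2) (by positivity)] with N hN y hy
  have := hN (r y.1) ⟨h0 _, le_of_lt hy⟩ y.2.1 y.2.2
  rw [pow_zero, one_mul] at this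
  rw [dist_comm, Real.dist_eq]
  linarith

lemma Cv.even (h : Cv s0 p φ ψ) :
    TendstoLocallyUniformly (fun N => even s0 (φ N)) (even s0 ψ) atTop :=
  h.reparam (r := fun s => s0 + |s - s0|) (by fun_prop) fun s => by linarith [abs_nonneg (s - s0)]

lemma Cv.odd (h : Cv s0 p φ ψ) :
    TendstoLocallyUniformly (fun N => odd s0 (φ N)) (odd s0 ψ) atTop :=
  ((h.reparam (r := fun s => max s s0) (by fun_prop) fun _ => le_max_right _ _).add
    (h.reparam (r := fun _ => s0) continuous_const fun _ => le_rfl)).sub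
    (h.reparam (r := fun s => max (2 * s0 - s) s0) (by fun_prop) fun _ => le_max_right _ _)

lemma continuous_reparam {Φ : ℝ → E3 → SV} (h : SmC Φ) {r : ℝ → ℝ} (hr : Continuous r) :
    Continuous fun q : ℝ × E3 × E3 => Φ (r q.1) q.2.1 q.2.2 :=
  continuous_evalSV.comp ((h.cont.comp ((hr.comp continuous_fst).prodMk
    (continuous_fst.comp continuous_snd))).prodMk (continuous_snd.comp continuous_snd))

lemma continuous_even {Φ : ℝ → E3 → SV} (h : SmC Φ) :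
    Continuous (even s0 fun s x V => Φ s x V) :=
  continuous_reparam h (r := fun s => s0 + |s - s0|) (by fun_prop)

lemma continuous_odd {Φ : ℝ → E3 → SV} (h : SmC Φ) :
    Continuous (odd s0 fun s x V => Φ s x V) :=
  ((continuous_reparam h (r := fun s => max s s0) (by fun_prop)).add
    (continuous_reparam h (r := fun _ => s0) continuous_const)).sub
    (continuous_reparam h (r := fun s => max (2 * s0 - s) s0) (by fun_prop))

end Pool.Agent.MP_187b32_an.PicLim
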