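import Pool.Agent.MP_187b32_an.Pic.LimB
import Pool.Agent.MP_187b32_an.M7.Spec

/-! The limit of the Picard iterates is a classical solution. -/

set_option autoImplicit false

open Filter Topology Pool.Agent.Boltz Set
open scoped ContDiff

noncomputable section

namespace Pool.Agent.MP_187b32_an.PicLim

open Coll

lemma vel_apply (F : Fld) (x : E3) (f : SV) (V : E3) :
    F.vel x f V = -∑ j, F.bj x V j * (V j / 2 * f V - dV j f V) := by
  simp only [Fld.vel, Fld.bj, neg_apply, add_apply, smul_apply, mulV_apply, ap_apply,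
    dV_apply, smul_eq_mul, Fin.sum_univ_three]
  ring

lemma tr_apply (F : Fld) (G : E3 → SV) (x V : E3) :
    F.tr G x V = ∑ i, (F.u i x + F.c x * V i) * dX i G x V
      - ∑ j, F.bj x V j * (V j / 2 * G x V - dV j (G x) V) := by
  simp only [Fld.tr, add_apply, smul_apply, mulV_apply, vel_apply, smul_eq_mul,
    Fin.sum_univ_three]
  ring

lemma exists_sup (q : ℕ) : ∃ C : ℝ, 0 < C ∧ ∀ (f : SV) (η : ℝ), nA (q + 4) f ≤ η → ∀ V : E3,
    (1 + ‖V‖) ^ q * |f V| ≤ C * √η ∧ (1 + ‖V‖) ^ q * ‖fderiv ℝ f V‖ ≤ C * √η ∧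
      ∀ j, (1 + ‖V‖) ^ q * |dV j f V| ≤ C * √η := by
  obtain ⟨C, hC, h⟩ := weighted_le_nA q
  refine ⟨C, hC, fun f η hη V => ?_⟩
  have a1 : C * √(nA (q + 4) f) ≤ C * √η := by gcongr
  have a2 : C * √(nA (q + 3) f) ≤ C * √(nA (q + 4) f) := by
    gcongr
    exact nA_le_succ _ _
  refine ⟨(h f V).1.trans (a2.trans a1), (h f V).2.trans a1, fun j => ?_⟩
  refine le_trans (mul_le_mul_of_nonneg_left ?_ (wt_pos V q).le) ((h f V).2.trans a1)
  simpa [dV_apply, norm_ev] using (fderiv ℝ f V).le_opNorm (ev j)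

lemma exists_eta {C δ : ℝ} (hC : 0 < C) (hδ : 0 < δ) : ∃ η : ℝ, 0 < η ∧ C * √η = δ :=
  ⟨(δ / C) ^ 2, by positivity, by rw [Real.sqrt_sq (by positivity)]; field_simp⟩

variable {s0 : ℝ} {p : ℕ} {φ : ℕ → Fn} {ψ : Fn}

lemma Cv.bj {F : ℝ → Fld} (hF : FldC F) (h : Cv s0 (p + 2) φ ψ) (j : Fin 3) :
    Cv s0 p (fun N s x V => (F s).bj x V j * φ N s x V)
      fun s x V => (F s).bj x V j * ψ s x V := by
  have a0 := (h.mono (p' := p) (by omega)).coef (hF.b0 j) fun s => ((hF.reg s).b0 j).2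
  have a1 := Cv.sum Finset.univ fun i =>
    ((h.mono (p' := p + 1) (by omega)).coord i).coef (hF.b1 i j) fun s => ((hF.reg s).b1 i j).2
  have a2 := Cv.sum Finset.univ fun i =>
    ((h.coord j).coord i).coef (hF.b2 i) fun s => ((hF.reg s).b2 i).2
  have e : ∀ (s : ℝ) (x V : E3) (y : ℝ), (F s).bj x V j * y = (F s).b0 j x * y +
      ∑ i, (F s).b1 i j x * (V i * y) + ∑ i, (F s).b2 i x * (V i * (V j * y)) := by
    intro s x V y
    simp only [Fld.bj, Fin.sum_univ_three]
    ring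
  simp only [e]
  exact (a0.add a1).add a2

/-- The directions in `(s, x, V)`. -/
def dir : Unit ⊕ Fin 3 ⊕ Fin 3 → ℝ × E3 × E3 :=
  Sum.elim (fun _ => (1, 0, 0)) (Sum.elim (fun i => (0, ev i, 0)) fun j => (0, 0, ev j))

/-- The coordinates in `(s, x, V)`. -/
def crd : Unit ⊕ Fin 3 ⊕ Fin 3 → (ℝ × E3 × E3) →L[ℝ] ℝ :=
  Sum.elim (fun _ => ContinuousLinearMap.fst ℝ _ _) (Sum.elim
    (fun i => (EuclideanSpace.proj i : E3 →L[ℝ] ℝ).comp
      ((ContinuousLinearMap.fst ℝ _ _).comp (ContinuousLinearMap.snd ℝ _ _)))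
    fun j => (EuclideanSpace.proj j : E3 →L[ℝ] ℝ).comp
      ((ContinuousLinearMap.snd ℝ _ _).comp (ContinuousLinearMap.snd ℝ _ _)))

lemma sum_crd (q : ℝ × E3 × E3) : ∑ i, crd i q • dir i = q := by
  rw [Fintype.sum_sum_type, Fintype.sum_sum_type]
  ext1
  · simp [crd, dir, Prod.fst_sum]
  · ext1
    · simpa [crd, dir, Prod.fst_sum, Prod.snd_sum] using sum_coord_ev q.2.1
    · simpa [crd, dir, Prod.fst_sum, Prod.snd_sum] using sum_coord_ev q.2.2

lemma norm_crd_le (i : Unit ⊕ Fin 3 ⊕ Fin 3) : ‖crd i‖ ≤ 1 := by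
  refine ContinuousLinearMap.opNorm_le_bound _ zero_le_one fun q => ?_
  rw [one_mul]
  rcases i with i | i | i
  · exact norm_fst_le q
  · exact (PiLp.norm_apply_le q.2.1 i).trans ((norm_fst_le q.2).trans (norm_snd_le q))
  · exact (PiLp.norm_apply_le q.2.2 i).trans ((norm_snd_le q.2).trans (norm_snd_le q))

/-- The extension of a convergent sequence is of class `C^1`. -/
lemma hasFDerivAt_odd {h h' : ℕ → ℝ → E3 → SV} (hd : ∀ j, SmD (h j) (h' j)) {α : Fn}
    {β χ : Fin 3 → Fn} (c0 : Cv s0 p (fun N s x V => h N s x V) ψ)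
    (c1 : Cv s0 p (fun N s x V => h' N s x V) α)
    (c2 : ∀ i, Cv s0 p (fun N s x V => dX i (h N s) x V) (β i))
    (c3 : ∀ j, Cv s0 p (fun N s x V => dV j (h N s x) V) (χ j)) :
    ContDiff ℝ 1 (odd s0 ψ) ∧ ∀ q, HasFDerivAt (odd s0 ψ)
      (∑ i, Sum.elim (fun _ => even s0 α) (Sum.elim (fun i => odd s0 (β i)) fun j => odd s0 (χ j))
        i q • crd i) q := by
  have hD : ∀ i : Unit ⊕ Fin 3 ⊕ Fin 3, Continuous (Sum.elim (fun _ => even s0 α)
      (Sum.elim (fun i => odd s0 (β i)) fun j => odd s0 (χ j)) i) := by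
    rintro (i | i | i)
    · exact c1.even.continuous (Frequently.of_forall fun N => continuous_even (hd N).sm')
    · exact (c2 i).odd.continuous (Frequently.of_forall fun N => continuous_odd ((hd N).sm.dX i))
    · exact (c3 i).odd.continuous
        (Frequently.of_forall fun N => continuous_odd ((hd N).sm.clm (dV i)))
  have pt : ∀ q, Tendsto (fun N => odd s0 (fun s x V => h N s x V) q) atTop (𝓝 (odd s0 ψ q)) :=
    fun q => (tendstoLocallyUniformlyOn_univ.2 c0.odd).tendsto_at (mem_univ q)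
  have hf : ∀ (i : Unit ⊕ Fin 3 ⊕ Fin 3) q, HasDerivAt (fun t : ℝ => odd s0 ψ (q + t • dir i))
      (Sum.elim (fun _ => even s0 α)
        (Sum.elim (fun i => odd s0 (β i)) fun j => odd s0 (χ j)) i q) 0 := by
    rintro (i | i | i)
    · refine dir_of_limit (fun N q => ?_) pt c1.even
      have := (hasDerivAt_refl (fun s => hd_eval ((hd N).hd s q.2.1) q.2.2) s0 q.1)
      rw [← add_zero q.1] at this
      simpa [odd, even, dir] using this.comp_const_add q.1 0
    · refine dir_of_limit (fun N q => ?_) pt (c2 i).odd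
      have k := fun s => hd_eval ((hd N).sm.dif s i q.2.1) q.2.2
      simpa [odd, dir] using ((k _).fun_add (k s0)).fun_sub (k _)
    · refine dir_of_limit (fun N q => ?_) pt (c3 i).odd
      have k := fun s => hasDerivAt_line (h N s q.2.1) i q.2.2
      simpa [odd, dir] using ((k _).fun_add (k s0)).fun_sub (k _)
  exact ⟨contDiff_one_of_dir dir crd sum_crd hD hf, hasFDerivAt_of_dir dir crd sum_crd hD hf⟩

lemma smooth_of_span {m : ℕ} {Ψ : Fin m → E3 → SV} (hΨ : ∀ i, Sm (Ψ i)) {h : ℕ → E3 → SV}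
    (hs : ∀ j, ∃ α : Fin m → ℝ, ∀ x, h j x = ∑ i, α i • Ψ i x) {f : E3 × E3 → ℝ}
    (ht : ∀ q, Tendsto (fun j => h j q.1 q.2) atTop (𝓝 (f q))) : ContDiff ℝ ∞ f := by
  set W : Submodule ℝ (E3 × E3 → ℝ) := Submodule.span ℝ (range fun i q => Ψ i q.1 q.2) with hW
  have : FiniteDimensional ℝ W := FiniteDimensional.span_of_finite ℝ (finite_range _)
  have hf : f ∈ W := W.closed_of_finiteDimensional.mem_of_tendsto (tendsto_pi_nhds.2 ht)
    (Eventually.of_forall fun j => by
      obtain ⟨α, hα⟩ := hs j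
      refine (Submodule.mem_span_range_iff_exists_fun ℝ).2 ⟨α, ?_⟩
      funext q
      simp [hα])
  obtain ⟨α, rfl⟩ := (Submodule.mem_span_range_iff_exists_fun ℝ).1 hf
  have := contDiff_of_sm (Sm.sum Finset.univ fun i _ => (hΨ i).const_smul (α i))
  convert this using 1
  funext q
  simp

end Pool.Agent.MP_187b32_an.PicLim

namespace Pool.Agent.MP_187b32_an

open PicLim Coll

theorem limit2 : LimitStmt2 := by
  intro Q hQ p ε hε
  obtain ⟨C, hC, sup⟩ := exists_sup (p + 9)
  obtain ⟨ε', hε', e'⟩ := exists_eta (C := C) (δ := ε / 2 ^ (p + 9)) hC (by positivity)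
  refine ⟨p + 9 + 4, ε', hε', fun F k s0 h h' g e hF hk pk I => ?_⟩
  have cau : ∀ s1 δ : ℝ, 0 < δ → ∃ J, ∀ j, J ≤ j → ∀ l, J ≤ l → ∀ s ∈ Icc s0 s1, ∀ x V : E3,
      ((1 + ‖V‖) ^ (p + 9) * |h j s x V - h l s x V| ≤ δ ∧
      (∀ i, (1 + ‖V‖) ^ (p + 9) * |dV i (h j s x) V - dV i (h l s x) V| ≤ δ) ∧
      ∀ i, (1 + ‖V‖) ^ (p + 9) * |dX i (h j s) x V - dX i (h l s) x V| ≤ δ) ∧
      (1 + ‖V‖) ^ (p + 9) * |g j s x V - h j s x V - 0| ≤ δ ∧
      (∀ i, (1 + ‖V‖) ^ (p + 9) * |dV i (g j s x) V - dV i (h j s x) V - 0| ≤ δ) ∧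
      (1 + ‖V‖) ^ (p + 9) * |e j s x V - 0| ≤ δ := by
    intro s1 δ hδ
    obtain ⟨η, hη, rfl⟩ := exists_eta hC hδ
    obtain ⟨J, hJ⟩ := I.cauchy s1 η hη
    refine ⟨J, fun j hj l hl s hs x V => ?_⟩
    obtain ⟨a1, a2, a3⟩ := hJ j hj l hl s hs
    have b1 := sup _ _ (a1 [] (by simp) x) V
    have b2 := sup _ _ (a2 [] (by simp) x) V
    have b3 := sup _ _ (a3 [] (by simp) x) V
    refine ⟨⟨b1.1, fun i => by simpa using b1.2.2 i, fun i => ?_⟩, by simpa using b2.1,
      fun i => by simpa using b2.2.2 i, by simpa using b3.1⟩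
    have b4 := (sup _ _ (a1 [i] (by simp) x) V).1
    rwa [dXw_cons, dXw_nil, dX_sub ((I.smd j).sm.dif s) ((I.smd l).sm.dif s)] at b4
  obtain ⟨ψ, c0⟩ := exists_cv (s0 := s0) (p := p + 9) (φ := fun N s x V => h N s x V)
    fun s1 δ hδ => (cau s1 δ hδ).imp fun J t j hj l hl s hs x V => (t j hj l hl s hs x V).1.1
  choose χ c3 using fun i => exists_cv (s0 := s0) (p := p + 9)
    (φ := fun N s x V => dV i (h N s x) V)
    fun s1 δ hδ => (cau s1 δ hδ).imp fun J t j hj l hl s hs x V => (t j hj l hl s hs x V).1.2.1 i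
  choose β c2 using fun i => exists_cv (s0 := s0) (p := p + 9)
    (φ := fun N s x V => dX i (h N s) x V)
    fun s1 δ hδ => (cau s1 δ hδ).imp fun J t j hj l hl s hs x V => (t j hj l hl s hs x V).1.2.2 i
  have g0 : Cv s0 (p + 9) (fun N s x V => g N s x V) ψ := by
    have : Cv s0 (p + 9) (fun N s x V => g N s x V - h N s x V) fun _ _ _ => 0 := fun s1 δ hδ =>
      (cau s1 δ hδ).elim fun J t => (eventually_ge_atTop J).mono fun j hj s hs x V =>
        (t j hj j hj s hs x V).2.1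
    simpa using this.add c0
  have g3 : ∀ i, Cv s0 (p + 9) (fun N s x V => dV i (g N s x) V) (χ i) := by
    intro i
    have : Cv s0 (p + 9) (fun N s x V => dV i (g N s x) V - dV i (h N s x) V) fun _ _ _ => 0 :=
      fun s1 δ hδ => (cau s1 δ hδ).elim fun J t => (eventually_ge_atTop J).mono
        fun j hj s hs x V => (t j hj j hj s hs x V).2.2.1 i
    simpa using this.add (c3 i)
  have e0 : Cv s0 (p + 9) (fun N s x V => e N s x V) fun _ _ _ => 0 := fun s1 δ hδ =>
    (cau s1 δ hδ).elim fun J t => (eventually_ge_atTop J).mono fun j hj s hs x V =>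
      (t j hj j hj s hs x V).2.2.2
  have nice : ∀ s, s0 ≤ s → ∀ x, Nice (p + 9) ε (ψ s x) := by
    intro s hs x
    refine nice_of_tendsto (c0.tendsto hs x) (Eventually.of_forall fun j => ?_)
    have := nice_of_fderiv (h j s x).differentiable (fun V => (sup _ _ (I.small j s hs x) V).1)
      fun V => (sup _ _ (I.small j s hs x) V).2.1
    rwa [e', mul_div_cancel₀ _ (by positivity)] at this
  have nb : NBd s0 (p + 9) ψ := fun _ => ⟨ε, fun s hs x => nice s hs.1 x⟩
  have nbM : NBd s0 (p + 9) fun _ _ => sM := fun _ => ⟨_, fun _ _ _ => nice_sM _⟩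
  have nh := ncv_of_cv c0 c3
  have ng := ncv_of_cv g0 g3
  set α : Fn := fun s x V => (F s).src x V + k s x * Gam (ψ s x) (ψ s x) V + 0
    - (∑ i, ((F s).u i x * β i s x V + (F s).c x * (V i * β i s x V))
      - ∑ j, (F s).bj x V j * (1 / 2 * (V j * ψ s x V) - χ j s x V))
    + k s x * (Gam sM (ψ s x) V + Gam (ψ s x) sM V) with hα
  have c1 : Cv s0 p (fun N s x V => h' N s x V) α := by
    refine (((((Cv.const fun s x V => (F s).src x V).add ((cv_Gam ng ng nb nb).coef hk pk)).add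
      (e0.mono (by omega))).sub ((Cv.sum Finset.univ fun i =>
        (((c2 i).mono (by omega)).coef (hF.u i) fun s => ((hF.reg s).u i).2).add
        ((((c2 i).mono (by omega)).coord i).coef hF.c fun s => (hF.reg s).c.2)).sub
      (Cv.sum Finset.univ fun j => Cv.bj hF ((((c0.mono (by omega)).coord j).const_mul
        (1 / 2)).sub ((c3 j).mono (by omega))) j))).add
      (((cv_Gam (NCv.const _) nh nbM nb).add (cv_Gam nh (NCv.const _) nb nbM)).coef hk pk)).congr
      fun N s hs x V => ?_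
    have := congrArg (fun f : SV => f V) (I.eqn N s hs x)
    simp only [add_apply, smul_apply, smul_eq_mul, tr_apply, Q.L_eq, neg_apply, hQ, Gs,
      Fin.sum_univ_three] at this ⊢
    rw [show ((sqMS : SV) : E3 → ℝ) = sM from funext sqMS_apply] at this
    linarith
  obtain ⟨d1, d2⟩ := hasFDerivAt_odd I.smd (c0.mono (by omega)) c1
    (fun i => (c2 i).mono (by omega)) fun j => (c3 j).mono (by omega)
  refine ⟨fun s x V => odd s0 ψ (s, x, V), ⟨d1, fun s V i x => ?_, fun s hs x => ?_, fun s1 => ?_,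
    fun s hs x V => ?_, ?_, fun x V => ?_⟩, fun s hs x V => by
      simp only [odd_of_le ψ hs]
      exact c0.tendsto hs x V⟩
  · have pp : ∀ s, s0 ≤ s → ψ s (x + ev i) V = ψ s x V := fun s hs =>
      tendsto_nhds_unique (c0.tendsto hs (x + ev i) V) (by
        simpa only [I.per _ s i x] using c0.tendsto hs x V)
    simp only [odd]
    rw [pp _ (le_max_right _ _), pp _ le_rfl, pp _ (le_max_right _ _)]
  · simp only [odd_of_le ψ hs]
    exact (nice s hs x).mono (by omega)
  · obtain ⟨K1, k1⟩ := c1.bd (fun N => bd_of_smC (I.smd N).sm' (I.per' N) s0 p) s1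
    choose K2 k2 using fun i => ((c2 i).mono (p' := p) (by omega)).bd
      (fun N => bd_of_smC ((I.smd N).sm.dX i) (fun s => (I.per N s).dX i) s0 p) s1
    choose K3 k3 using fun i => ((c3 i).mono (p' := p) (by omega)).bd
      (fun N => bd_of_smC ((I.smd N).sm.clm (dV i)) (fun s => (I.per N s).map _) s0 p) s1
    refine ⟨K1 + (∑ i, K2 i + ∑ i, K3 i), fun s hs x V => ?_⟩
    rw [(d2 (s, x, V)).fderiv]
    refine (mul_le_mul_of_nonneg_left ((norm_sum_le _ _).trans (Finset.sum_le_sum fun i _ =>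
      (norm_smul_le _ _).trans (mul_le_of_le_one_right (norm_nonneg _) (norm_crd_le i))))
      (wt_pos V p).le).trans ?_
    rw [Finset.mul_sum, Fintype.sum_sum_type, Fintype.sum_sum_type]
    simp only [Sum.elim_inl, Sum.elim_inr, odd_of_le _ hs.1, even_of_le _ hs.1, Real.norm_eq_abs,
      Finset.univ_unique, Finset.sum_singleton]
    exact add_le_add (k1 s hs x V) (add_le_add (Finset.sum_le_sum fun i _ => k2 i s hs x V)
      (Finset.sum_le_sum fun i _ => k3 i s hs x V))
  · have D := d2 (s, x, V)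
    have a1 : deriv (fun t => odd s0 ψ (t, x, V)) s = α s x V := by
      have := (D.comp_hasDerivAt s
        ((hasDerivAt_id s).prodMk (hasDerivAt_const s (x, V)))).deriv
      simpa [Function.comp_def, crd, Fintype.sum_sum_type, even_of_le _ hs] using this
    have a2 : ∀ i, fderiv ℝ (fun y => odd s0 ψ (s, y, V)) x (ev i) = β i s x V := by
      intro i
      have t : HasFDerivAt (fun y : E3 => (s, y, V)) _ x := (hasFDerivAt_const s x).prodMk
        ((hasFDerivAt_id (𝕜 := ℝ) x).prodMk (hasFDerivAt_const V x))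
      have := (D.comp x t).fderiv
      simp only [Function.comp_def] at this
      rw [this]
      simp [crd, Fintype.sum_sum_type, odd_of_le _ hs]
    have a3 : ∀ j, fderiv ℝ (fun W => sqM W + odd s0 ψ (s, x, W)) V (ev j) =
        dV j sqMS V + χ j s x V := by
      intro j
      have t : HasFDerivAt (fun W : E3 => (s, x, W)) _ V := (hasFDerivAt_const s V).prodMk
        ((hasFDerivAt_const x V).prodMk (hasFDerivAt_id (𝕜 := ℝ) V))
      have := (sqMS.hasFDerivAt V).add (D.comp V t)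
      have e : (fun W => sqM W + odd s0 ψ (s, x, W)) = ⇑sqMS + (odd s0 ψ ∘ fun W => (s, x, W)) :=
        funext fun W => by simp
      rw [e, this.fderiv]
      simp [crd, Fintype.sum_sum_type, odd_of_le _ hs, dV_apply]
    simp only [a1, a2, a3]
    simp only [odd_of_le ψ hs]
    have a4 := Gam_sM_add (nice s hs x) V
    rw [show sqM = sM from rfl, a4, hα]
    simp only [Fld.src, neg_apply, vel_apply, sqMS_apply, Lop, Gs, Fin.sum_univ_three]
    rw [show sqM = sM from rfl]
    ring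
  · obtain ⟨m, Ψ, h1, h2⟩ := I.init
    refine smooth_of_span h1 h2 fun q => ?_
    simp only [odd_of_le ψ le_rfl]
    exact c0.tendsto le_rfl q.1 q.2
  · simp only [odd_of_le ψ le_rfl]
    exact le_of_tendsto' (c0.tendsto le_rfl x V).abs fun j => I.init_small j x V

theorem limit : LimitStmt := limit2.limit

end Pool.Agent.MP_187b32_an
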