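import Pool.Agent.MP_187b32_an.Lin.YF

/-! Pointwise comparison of the weights used in the Picard iteration. -/

set_option autoImplicit false

open Pool.Agent.Boltz Finset

noncomputable section

namespace Pool.Agent.MP_187b32_an.Pic

open Lin

variable {B : BgD}

lemma kap_pos (hB : B.Ok) : 0 < B.kap := by have := hB.r_gt; unfold BgD.kap; linarith

lemma kap_lt (hB : B.Ok) : B.kap < 1 / 4 := by have := hB.r_lt; unfold BgD.kap; linarith

lemma k1_pos (hB : B.Ok) (s : ℝ) (x : E3) : 0 < B.k1 s x :=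
  mul_pos (Real.exp_pos _) (pow_pos (hB.C_pos s x) _)

lemma per_k1 (hB : B.Ok) (s : ℝ) : Per (B.k1 s) := fun i x => by
  simp only [BgD.k1, hB.per_C s i x]

lemma exp_le_sig (s : ℝ) (x : E3) : Real.exp (-s) ≤ B.sig s x :=
  le_add_of_nonneg_right (Real.sqrt_nonneg _)

lemma Lam_le {s : ℝ} (hs : 0 ≤ s) (x : E3) : B.Lam s x ≤ 2 := by
  have h2 : Real.exp (-2 * s) ≤ 1 := Real.exp_le_one_iff.mpr (by linarith)
  exact Real.sqrt_le_iff.2 ⟨by norm_num, by linarith [B.cut.rho2_le x]⟩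

lemma nu_Lam_le (hB : B.Ok) (s : ℝ) (x : E3) : B.nu * B.Lam s x ≤ B.sig s x := by
  have h1 := hB.nu_pos
  have h3 : B.nu ^ 2 ≤ 1 := pow_le_one₀ h1.le hB.nu_le
  refine le_trans ?_ (le_add_of_nonneg_left (Real.exp_pos _).le)
  refine Real.le_sqrt_of_sq_le ?_
  rw [mul_pow, BgD.Lam, Real.sq_sqrt (by linarith [Real.exp_pos (-2 * s), rho2_nonneg B x])]
  nlinarith [Real.exp_pos (-2 * s)]

lemma nu_cube_le (hB : B.Ok) (a s : ℝ) (x : E3) :
    B.nu ^ 3 * (Real.exp (-2 * a * s) * B.Lam s x ^ (-2 * a)) ≤ B.sig s x ^ 3 * B.om a s x := by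
  have hL := Lam_pos B s x
  have h1 := hB.nu_pos
  have e : B.Lam s x ^ (-2 * a) = B.Lam s x ^ 3 * B.Lam s x ^ (-3 - 2 * a) := by
    rw [← Real.rpow_natCast, ← Real.rpow_add hL]; congr 1; push_cast; ring
  have h2 := pow_le_pow_left₀ (by positivity) (nu_Lam_le hB s x) 3
  have h3 := mul_le_mul_of_nonneg_right h2 (om_pos B a s x).le
  refine le_trans (le_of_eq ?_) h3
  rw [e, BgD.om]
  ring

lemma wt_facts (hB : B.Ok) : ∃ Ck : ℝ, 0 < Ck ∧ ∀ s, 0 ≤ s → ∀ x,
    B.mu s x ≤ Ck * B.k1 s x ∧ B.mu s x ^ 2 ≤ Ck * Real.exp (-B.kap * s) * B.k1 s x ∧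
    1 ≤ Ck * (B.sig s x ^ 3 * B.om 0 s x) ∧
    B.k1 s x ≤ Ck * Real.exp (B.kap * s) * (B.sig s x ^ 3 * B.om (1 / 4) s x) := by
  obtain ⟨c0, hc0, hC⟩ := hB.C_ge
  obtain ⟨K, hK⟩ := hB.sym
  have hν := hB.nu_pos
  have k0 := kap_pos hB
  have k1 := kap_lt hB
  have hr := hB.r_gt
  set a := (c0 ^ 11)⁻¹ with ha
  set b := (B.nu ^ 3)⁻¹ with hb
  have ha0 : 0 < a := by positivity
  have hb0 : 0 < b := by positivity
  refine ⟨2 * a + b + |K 0| ^ 11 * b, by positivity, fun s hs x => ?_⟩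
  have hL := Lam_pos B s x
  have hk := k1_pos hB s x
  have hμ := mu_pos B s x
  have hσ := sig_pos B s x
  have e11 : (B.Lam s x ^ (1 - B.r)) ^ 11 = B.Lam s x ^ (-B.r) * B.Lam s x ^ (-B.kap) := by
    rw [← Real.rpow_natCast, ← Real.rpow_mul hL.le, ← Real.rpow_add hL]
    congr 1; unfold BgD.kap; push_cast; ring
  have low : B.mu s x ≤ a * B.Lam s x ^ B.kap * B.k1 s x := by
    have h1 := pow_le_pow_left₀ (by positivity) (hC s hs x) 11
    rw [mul_pow, e11] at h1
    have h2 := mul_le_mul_of_nonneg_left h1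
      (show 0 ≤ a * B.Lam s x ^ B.kap * Real.exp (-B.r * s) by positivity)
    refine le_trans (le_of_eq ?_) (h2.trans (le_of_eq (by rw [BgD.k1]; ring)))
    rw [BgD.mu, Real.rpow_neg hL.le B.kap, ha]
    field_simp
  have hX : 0 ≤ |K 0| ^ 11 * b := by positivity
  refine ⟨?_, ?_, ?_, ?_⟩
  · have h1 : B.Lam s x ^ B.kap ≤ 2 :=
      (Real.rpow_le_rpow hL.le (Lam_le hs x) k0.le).trans (by
        simpa using Real.rpow_le_rpow_of_exponent_le (x := 2) (by norm_num)
          (show B.kap ≤ 1 by linarith))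
    refine low.trans (mul_le_mul_of_nonneg_right ?_ hk.le)
    nlinarith
  · have h1 : B.mu s x * B.Lam s x ^ B.kap ≤ Real.exp (-B.kap * s) := by
      have h := Lam_rpow_le B s x (b := -B.r + B.kap) (by linarith)
      rw [BgD.mu, mul_assoc, ← Real.rpow_add hL]
      refine (mul_le_mul_of_nonneg_left h (Real.exp_pos _).le).trans (le_of_eq ?_)
      rw [← Real.exp_add]; congr 1; ring
    have h2 := mul_le_mul_of_nonneg_left low hμ.le
    have h3 := mul_le_mul_of_nonneg_right h1 (show 0 ≤ a * B.k1 s x by positivity)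
    have h4 : 0 ≤ (a + b + |K 0| ^ 11 * b) * Real.exp (-B.kap * s) * B.k1 s x := by positivity
    nlinarith
  · have h1 := nu_cube_le hB 0 s x
    simp only [mul_zero, zero_mul, Real.exp_zero, Real.rpow_zero, mul_one] at h1
    have h2 := mul_le_mul_of_nonneg_left h1 hb0.le
    rw [hb, inv_mul_cancel₀ (by positivity), ← hb] at h2
    have := om_pos B 0 s x
    have h4 : 0 ≤ (2 * a + |K 0| ^ 11 * b) * (B.sig s x ^ 3 * B.om 0 s x) := by positivity
    nlinarith
  · have h0 : B.C s x ≤ |K 0| * B.Lam s x ^ (1 - B.r) := by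
      have := (hK s hs).2.1 [] le_rfl x
      simp only [List.length_nil, pow_zero, one_mul, dXw] at this
      exact (le_abs_self _).trans (this.trans
        (mul_le_mul_of_nonneg_right (le_abs_self _) (by positivity)))
    have h1 := pow_le_pow_left₀ (hB.C_pos s x).le h0 11
    rw [mul_pow, e11, ← Real.rpow_add hL] at h1
    have h2 := Lam_rpow_le B s x (b := -B.r + -B.kap + 1 / 2) (by linarith)
    have e : B.Lam s x ^ (-B.r + -B.kap)
        = B.Lam s x ^ (-B.r + -B.kap + 1 / 2) * B.Lam s x ^ (-2 * (1 / 4) : ℝ) := by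
      rw [← Real.rpow_add hL]; congr 1; ring
    have e2 : Real.exp (-B.r * s) * Real.exp (-((-B.r + -B.kap + 1 / 2) * s))
        = Real.exp (B.kap * s) * Real.exp (-2 * (1 / 4) * s) := by
      rw [← Real.exp_add, ← Real.exp_add]; congr 1; ring
    have h3 := mul_le_mul_of_nonneg_left (nu_cube_le hB (1 / 4) s x)
      (show 0 ≤ |K 0| ^ 11 * b * Real.exp (B.kap * s) by positivity)
    have := om_pos B (1 / 4) s x
    have h4 : 0 ≤ (2 * a + b) * Real.exp (B.kap * s) * (B.sig s x ^ 3 * B.om (1 / 4) s x) := by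
      positivity
    have h5 : B.k1 s x ≤ |K 0| ^ 11 * b * Real.exp (B.kap * s) *
        (B.nu ^ 3 * (Real.exp (-2 * (1 / 4) * s) * B.Lam s x ^ (-2 * (1 / 4) : ℝ))) := by
      calc B.k1 s x ≤ Real.exp (-B.r * s) * (|K 0| ^ 11 *
            (Real.exp (-((-B.r + -B.kap + 1 / 2) * s)) * B.Lam s x ^ (-2 * (1 / 4) : ℝ))) := by
            rw [BgD.k1]
            refine mul_le_mul_of_nonneg_left (h1.trans ?_) (Real.exp_pos _).le
            rw [e]
            gcongr
        _ = |K 0| ^ 11 * ((Real.exp (-B.r * s) * Real.exp (-((-B.r + -B.kap + 1 / 2) * s)))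
            * B.Lam s x ^ (-2 * (1 / 4) : ℝ)) := by ring
        _ = _ := by rw [e2, hb]; field_simp
    nlinarith

end Pool.Agent.MP_187b32_an.Pic
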