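import Pool.Agent.MP_187b32_an.Pic.En
import Pool.Agent.MP_187b32_an.Pic.Wt

/-! The combined energy of the Picard iteration and the linear energy inequality. -/

set_option autoImplicit false

open Pool.Agent.Boltz Finset

noncomputable section

namespace Pool.Agent.MP_187b32_an.Pic

open KK (bb_nonneg continuous_bb ip_le_bb)

lemma cont_slice {f : ℝ → E3 → ℝ} (h : Continuous fun p : ℝ × E3 => f p.1 p.2) (s : ℝ) :
    Continuous (f s) := h.comp (Continuous.prodMk_right s)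

/-- The data that are fixed before the iteration starts. -/
structure Dat where
  Q : CollOp
  B : BgD
  n : ℕ
  θ : ℝ
  δ : ℝ
  m : ℕ
  φ : Fin m → E3 → SV
  C0 : ℝ

namespace Dat

variable (X : Dat)

/-- The combined weight. -/
def om (s : ℝ) (x : E3) : ℝ := X.B.om 0 s x + Real.exp (2 * X.δ * s) * X.B.om (1 / 4) s x

/-- The combined energy. -/
def EE (n : ℕ) (s : ℝ) (G H : E3 → SV) : ℝ := En n X.θ (X.om s) (X.B.sig s) G H

/-- The combined dissipation. -/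
def DD (A s : ℝ) (G : E3 → SV) : ℝ :=
  tint fun x => X.om s x * (A * X.B.k1 s x) * yy X.Q X.n X.θ (X.B.sig s) G x

/-- The coefficients of the finite rank term. -/
def cc (s : ℝ) (G : E3 → SV) (i : Fin X.m) : ℝ :=
  X.C0 / 2 * X.B.E X.n X.θ (1 / 4) s (X.B.per (X.φ i) s) G

/-- Standing assumptions. -/
structure Base : Prop where
  ok : X.B.Ok
  θ_pos : 0 < X.θ
  θ_le : X.θ ≤ 1
  δ_pos : 0 < X.δ
  δ_lt : X.δ < X.B.kap
  inD : ∀ i, InD (X.φ i)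
  C0_pos : 0 < X.C0

/-- Solutions of the linear kinetic problem. -/
structure Kin (A s0 : ℝ) (u u' S : ℝ → E3 → SV) : Prop where
  smd : SmD u u'
  per : ∀ s, Per (u s)
  per' : ∀ s, Per (u' s)
  sm : SmC S
  eqn : ∀ s, s0 ≤ s → ∀ x, u' s x + (X.B.fld s).tr (u s) x + (A * X.B.k1 s x) • X.Q.L (u s x)
    + ∑ i, X.cc s (u s) i • X.B.per (X.φ i) s x = S s x

/-- The linear energy inequality. -/
def LinEst (c A0 s2 : ℝ) : Prop :=
  ∀ (A s0 : ℝ) (u u' S : ℝ → E3 → SV), A0 ≤ A → s2 ≤ s0 → X.Kin A s0 u u' S →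
    ∃ E' : ℝ → ℝ, Continuous E' ∧ (∀ s, HasDerivAt (fun t => X.EE X.n t (u t) (u t)) (E' s) s) ∧
      ∀ s, s0 ≤ s → E' s + c * X.DD A s (u s) ≤ 2 * X.EE X.n s (S s) (u s)

/-- Bounds for the finite family. -/
def KBd (CK s1 : ℝ) : Prop :=
  ∀ s, s1 ≤ s → ∀ i, X.B.E X.n X.θ (1 / 4) s (X.B.per (X.φ i) s) (X.B.per (X.φ i) s) ≤ CK ∧
    ∀ G : E3 → SV, Sm G → Per G →
      X.B.E X.n X.θ 0 s (X.B.per (X.φ i) s) G ^ 2 ≤ CK * X.B.E X.n X.θ (1 / 4) s G G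

variable {X}

lemma om_pos (s : ℝ) (x : E3) : 0 < X.om s x :=
  add_pos (Lin.om_pos _ _ _ _) (mul_pos (Real.exp_pos _) (Lin.om_pos _ _ _ _))

lemma Base.cont_om (h : X.Base) : Continuous fun p : ℝ × E3 => X.om p.1 p.2 :=
  (h.ok.sm_om 0).sm.cont.add (Continuous.mul (by fun_prop) (h.ok.sm_om _).sm.cont)

lemma Base.c_om (h : X.Base) (s : ℝ) : Continuous (X.om s) :=
  cont_slice h.cont_om s

lemma Base.c_oma (h : X.Base) (a s : ℝ) : Continuous (X.B.om a s) := (h.ok.sm_om a).sm.cont_slice s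

lemma Base.c_sig (h : X.Base) (s : ℝ) : Continuous (X.B.sig s) := h.ok.sm_sig.sm.cont_slice s

lemma Base.c_k1 (h : X.Base) (s : ℝ) : Continuous (X.B.k1 s) := h.ok.sm_k1.cont_slice s

lemma tint_om (h : X.Base) (s : ℝ) {ψ : E3 → ℝ} (hψ : Continuous ψ) :
    tint (fun x => X.om s x * ψ x) = tint (fun x => X.B.om 0 s x * ψ x)
      + Real.exp (2 * X.δ * s) * tint fun x => X.B.om (1 / 4) s x * ψ x := by
  have h0 := h.c_oma 0 s
  have h1 := h.c_oma (1 / 4) s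
  rw [← tint_const_mul, ← tint_add (by fun_prop) (by fun_prop)]
  exact tint_congr fun x => by rw [om]; ring

lemma En_om (h : X.Base) (n : ℕ) (θ s : ℝ) {G H : E3 → SV} (hG : Sm G) (hH : Sm H) :
    En n θ (X.om s) (X.B.sig s) G H
      = X.B.E n θ 0 s G H + Real.exp (2 * X.δ * s) * X.B.E n θ (1 / 4) s G H :=
  tint_om h s (continuous_bb (h.c_sig s) hG hH)

lemma EE_eq (h : X.Base) (n : ℕ) (s : ℝ) {G H : E3 → SV} (hG : Sm G) (hH : Sm H) :
    X.EE n s G H = X.B.E n X.θ 0 s G H + Real.exp (2 * X.δ * s) * X.B.E n X.θ (1 / 4) s G H :=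
  En_om h n _ s hG hH

lemma E_nonneg (h : X.Base) (n : ℕ) (a s : ℝ) (G : E3 → SV) : 0 ≤ X.B.E n X.θ a s G G :=
  En_nonneg h.θ_pos.le fun x => (Lin.om_pos _ _ _ x).le

lemma EE_nonneg (h : X.Base) (n : ℕ) (s : ℝ) (G : E3 → SV) : 0 ≤ X.EE n s G G :=
  En_nonneg h.θ_pos.le fun x => (om_pos s x).le

lemma cont_yy (hA : AlgStmt) (h : X.Base) {G : ℝ → E3 → SV} (hG : SmC G) :
    Continuous fun p : ℝ × E3 => yy X.Q X.n X.θ (X.B.sig p.1) (G p.1) p.2 :=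
  hA.YY_cont X.Q X.n X.θ X.B.sig (fun s y => G s y - PP (G s y)) h.ok.sm_sig.sm.cont
    (hG.sub (hG.clm PP))

lemma c_yy (hA : AlgStmt) (h : X.Base) (s : ℝ) {G : E3 → SV} (hG : Sm G) :
    Continuous (yy X.Q X.n X.θ (X.B.sig s) G) :=
  cont_slice (f := fun s => yy X.Q X.n X.θ (X.B.sig s) G) 
    (cont_yy (G := fun _ => G) hA h hG.smC) s

lemma c_YY (hA : AlgStmt) (h : X.Base) (s : ℝ) {G : E3 → SV} (hG : Sm G) :
    Continuous (YY X.Q X.n X.θ (X.B.sig s) G) :=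
  cont_slice (f := fun s => YY X.Q X.n X.θ (X.B.sig s) G)
    (hA.YY_cont X.Q X.n X.θ X.B.sig (fun _ => G) h.ok.sm_sig.sm.cont hG.smC) s

lemma yy_nonneg (hA : AlgStmt) (h : X.Base) (s : ℝ) (G : E3 → SV) (x : E3) :
    0 ≤ yy X.Q X.n X.θ (X.B.sig s) G x := hA.YY_nonneg _ _ _ _ _ h.θ_pos.le x

lemma cc_sq_le (hA : AlgStmt) (h : X.Base) {CK s1 s : ℝ} (hK : X.KBd CK s1) (hs : s1 ≤ s)
    {G : E3 → SV} (hG : Sm G) (i : Fin X.m) :
    X.B.E X.n X.θ (1 / 4) s (X.B.per (X.φ i) s) G ^ 2 ≤ CK * X.B.E X.n X.θ (1 / 4) s G G :=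
  (En_sq_le h.θ_pos.le (h.c_oma _ s) (fun x => (Lin.om_pos _ _ _ x).le) (h.c_sig s)
    ((hA.smC_per X.B _ (h.inD i).1).slice s) hG).trans
    (mul_le_mul_of_nonneg_right (hK s hs i).1 (E_nonneg h _ _ _ _))

end Dat

/-- The inequality of module M4 for the background `B`. -/
def M4At (Q : CollOp) (B : BgD) (n : ℕ) (θ A0 C c s1 : ℝ) : Prop :=
  ∀ a, 0 ≤ a → a ≤ 1 / 4 → ∀ g g' : ℝ → E3 → SV, SmD g g' → (∀ s, Per (g s)) →
    ∃ E' : ℝ → ℝ, Continuous E' ∧ (∀ s, HasDerivAt (fun t => B.E n θ a t (g t) (g t)) (E' s) s) ∧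
      ∀ A, A0 ≤ A → ∀ s, s1 ≤ s → E' s + 2 * a * B.E n θ a s (g s) (g s)
        + c * tint (fun x => B.om a s x * (A * B.k1 s x * yy Q n θ (B.sig s) (g s) x))
        ≤ C * tint (fun x => B.mu s x * B.om a s x * ip (PP (g s x)) (PP (g s x)))
          + 2 * B.E n θ a s
            (fun x => g' s x + (B.fld s).tr (g s) x + (A * B.k1 s x) • Q.L (g s x)) (g s)

lemma symBd_mul {K : ℕ → ℝ} {σ k : E3 → ℝ} (hk : Sm k) (h : SymBd K 0 σ k k) {A : ℝ} (hA : 0 ≤ A) :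
    SymBd K 0 σ (fun x => A * k x) fun x => A * k x := fun w hw x => by
  have e := congrFun (dXw_const_smul hk A w) x
  simp only [smul_eq_mul] at e
  rw [e, abs_mul, abs_of_nonneg hA]
  have := mul_le_mul_of_nonneg_left (h w hw x) hA
  linarith

theorem m4_at (h4 : M4Stmt) (Q : CollOp) {B : BgD} (hB : B.Ok) : ∃ n0 : ℕ, ∀ n, n0 ≤ n →
    ∃ θ A0 C c s1 : ℝ, 0 < θ ∧ θ ≤ 1 ∧ 0 < C ∧ 0 < c ∧ 0 ≤ s1 ∧ M4At Q B n θ A0 C c s1 := by
  obtain ⟨K, lam, s1, hlam, hs1, H⟩ := hB.hyp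
  obtain ⟨Ck, hCk, hw⟩ := wt_facts hB
  obtain ⟨n0, h4⟩ := h4 Q K lam hlam
  refine ⟨n0, fun n hn => ?_⟩
  obtain ⟨θ, A0, C, c, hθ, hθ1, hC, hc, h4⟩ := h4 n hn
  refine ⟨θ, |A0| * Ck, C, c, s1, hθ, hθ1, hC, hc, hs1, fun a ha ha1 g g' hg pg => ?_⟩
  obtain ⟨E', hE', hd, h4⟩ := h4 _ _ _ _ g g' (hB.sm_om a) hB.sm_sig hg pg
  refine ⟨E', hE', hd, fun A hA s hs => ?_⟩
  have hA0 : 0 ≤ A := le_trans (by positivity) hA
  obtain ⟨h1, h2, h3⟩ := H s hs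
  have hk := hB.sm_k1.slice s
  have := h4 s (B.fld s) (B.mu s) _ (fun x => A * B.k1 s x) (hB.fldC.reg s) h1 (h3 a ha ha1)
    (continuous_const.mul ((hB.sm_om a).sm.cont_slice s)) (hk.const_smul A)
    ((per_k1 hB s).map _) (symBd_mul hk h2 hA0) fun x => by
      have b1 := mul_le_mul_of_nonneg_left (hw s (hs1.trans hs) x).1 (abs_nonneg A0)
      have b2 := mul_le_mul_of_nonneg_right (le_abs_self A0) (Lin.mu_pos B s x).le
      have b3 := mul_le_mul_of_nonneg_right hA (k1_pos hB s x).le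
      linarith
  simp only [mul_assoc (2 * a), tint_const_mul, mul_assoc (B.om a s _)] at this
  exact this

theorem lin_est (hA : AlgStmt) {X : Dat} (h : X.Base) {A0 C c s1 CK : ℝ} (hC : 0 < C)
    (hCK : 0 < CK) (h4 : M4At X.Q X.B X.n X.θ A0 C c s1) (hK : X.KBd CK s1)
    (hK2 : ∀ s, s1 ≤ s → ∀ G : E3 → SV, Sm G → Per G →
      C * tint (fun x => X.B.mu s x * X.B.om (1 / 4) s x * ip (PP (G x)) (PP (G x)))
        ≤ (1 / 4 - X.B.kap) * X.B.E X.n X.θ (1 / 4) s G G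
          + X.C0 * ∑ i, X.B.E X.n X.θ (1 / 4) s (X.B.per (X.φ i) s) G ^ 2) :
    ∃ s2, s1 ≤ s2 ∧ X.LinEst c A0 s2 := by
  have hγ : 0 < 1 / 4 - X.B.kap := by linarith [kap_lt h.ok]
  have hδ := h.δ_pos
  have hC0 := h.C0_pos
  set D := C + X.C0 * X.m * CK with hD
  have hD0 : 0 < D := by positivity
  refine ⟨max s1 (D / (1 / 4 - X.B.kap) / (2 * X.δ)), le_max_left _ _,
    fun A s0 u u' S hA0 hs0 hu => ?_⟩
  obtain ⟨E0, c0, d0, h0⟩ := h4 0 le_rfl (by norm_num) u u' hu.smd hu.per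
  obtain ⟨E1, c1, d1, h1⟩ := h4 (1 / 4) (by norm_num) le_rfl u u' hu.smd hu.per
  have ce : Continuous fun s => X.B.E X.n X.θ (1 / 4) s (u s) (u s) :=
    continuous_iff_continuousAt.2 fun s => (d1 s).continuousAt
  refine ⟨fun s => E0 s + Real.exp (2 * X.δ * s) *
    (E1 s + 2 * X.δ * X.B.E X.n X.θ (1 / 4) s (u s) (u s)), by fun_prop, fun s => ?_,
    fun s hs => ?_⟩
  · simp only [fun t => Dat.EE_eq h X.n t (hu.smd.sm.slice t) (hu.smd.sm.slice t)]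
    refine ((d0 s).add (((hasDerivAt_id s).const_mul (2 * X.δ)).exp.mul (d1 s))).congr_deriv ?_
    simp only [id]
    ring
  have hs1 : s1 ≤ s := (le_max_left _ _).trans (hs0.trans hs)
  have su := hu.smd.sm.slice s
  have sφ := fun i => (hA.smC_per X.B _ (h.inD i).1).slice s
  have e : ∀ a, X.B.E X.n X.θ a s (fun x => u' s x + (X.B.fld s).tr (u s) x
      + (A * X.B.k1 s x) • X.Q.L (u s x)) (u s) = X.B.E X.n X.θ a s (S s) (u s)
        - ∑ i, X.cc s (u s) i * X.B.E X.n X.θ a s (X.B.per (X.φ i) s) (u s) := fun a => by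
    simp only [fun x => eq_sub_of_add_eq (hu.eqn s hs x), BgD.E]
    rw [En_sub_left (h.c_oma a s) (h.c_sig s) (hu.sm.slice s)
      (Sm.sum _ fun i _ => (sφ i).const_smul _) su, En_sum_left (h.c_oma a s) (h.c_sig s) _ sφ su]
  have a0 := h0 A hA0 s hs1
  have a1 := h1 A hA0 s hs1
  have a2 := hK2 s hs1 (u s) su (hu.per s)
  rw [e] at a0 a1
  set e1 := X.B.E X.n X.θ (1 / 4) s (u s) (u s) with he1
  have e10 : 0 ≤ e1 := Dat.E_nonneg h _ _ _ _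
  have a3 : ∑ i, X.cc s (u s) i * X.B.E X.n X.θ (1 / 4) s (X.B.per (X.φ i) s) (u s)
      = X.C0 / 2 * ∑ i, X.B.E X.n X.θ (1 / 4) s (X.B.per (X.φ i) s) (u s) ^ 2 := by
    rw [mul_sum]
    exact sum_congr rfl fun i _ => by rw [Dat.cc]; ring
  have a4 : -∑ i, X.cc s (u s) i * X.B.E X.n X.θ 0 s (X.B.per (X.φ i) s) (u s)
      ≤ X.m * (X.C0 / 2 * (CK * e1)) := by
    rw [← sum_neg_distrib]
    refine (sum_le_card_nsmul _ _ (X.C0 / 2 * (CK * e1)) fun i _ => ?_).trans (by simp)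
    have b1 := Dat.cc_sq_le hA h hK hs1 su i
    have b2 := (hK s hs1 i).2 (u s) su (hu.per s)
    rw [Dat.cc, mul_assoc, ← mul_neg]
    refine mul_le_mul_of_nonneg_left ?_ (by positivity)
    nlinarith [sq_nonneg (X.B.E X.n X.θ (1 / 4) s (X.B.per (X.φ i) s) (u s)
      + X.B.E X.n X.θ 0 s (X.B.per (X.φ i) s) (u s))]
  have a5 : tint (fun x => X.B.mu s x * X.B.om 0 s x * ip (PP (u s x)) (PP (u s x))) ≤ e1 := by
    refine tint_mono (((h.ok.sm_mu.cont_slice s).mul (h.c_oma 0 s)).mul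
      ((su.clm PP).ip (su.clm PP)).cont) (cont_wbb (h.c_oma _ s) (h.c_sig s) su su) fun x => ?_
    exact mul_le_mul (Lin.mu_om_le _ h.ok s x) ((ip_PP_PP_le _).trans (ip_le_bb h.θ_pos.le x))
      (ip_self_nonneg _) (Lin.om_pos _ _ _ x).le
  have a6 : D ≤ (1 / 4 - X.B.kap) * Real.exp (2 * X.δ * s) := by
    have b1 := (le_max_right _ _).trans (hs0.trans hs)
    rw [div_le_iff₀ (by positivity), div_le_iff₀ hγ] at b1
    nlinarith [Real.add_one_le_exp (2 * X.δ * s)]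
  set D0 := tint fun x => X.B.om 0 s x * (A * X.B.k1 s x * yy X.Q X.n X.θ (X.B.sig s) (u s) x)
  set D1 := tint fun x =>
    X.B.om (1 / 4) s x * (A * X.B.k1 s x * yy X.Q X.n X.θ (X.B.sig s) (u s) x)
  have a7 : X.DD A s (u s) = D0 + Real.exp (2 * X.δ * s) * D1 := by
    have := h.c_k1 s
    have := Dat.c_yy hA h s su
    simp only [Dat.DD, mul_assoc (X.om s _)]
    exact Dat.tint_om h s (by fun_prop)
  rw [a7, Dat.EE_eq h _ _ (hu.sm.slice s) su]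
  rw [a3] at a1
  have a8 := mul_le_mul_of_nonneg_left (show E1 s + 2 * X.δ * e1 + c * D1 ≤
    2 * X.B.E X.n X.θ (1 / 4) s (S s) (u s) - (1 / 4 - X.B.kap) * e1 by nlinarith [h.δ_lt]) 
    (Real.exp_pos (2 * X.δ * s)).le
  have a9 := mul_le_mul_of_nonneg_right a6 e10
  have a10 := mul_le_mul_of_nonneg_left a5 hC.le
  rw [hD] at a9
  nlinarith

end Pool.Agent.MP_187b32_an.Pic
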