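import Pool.Agent.MP_187b32_an.Pic.Seq

/-! Choice of the constants: the Picard iteration. -/

set_option autoImplicit false

open Pool.Agent.Boltz Finset Filter Topology

noncomputable section

namespace Pool.Agent.MP_187b32_an.Pic

lemma ev_small (a : ℝ) {b : ℝ} (hb : 0 < b) : ∀ᶠ M in 𝓝[>] (0 : ℝ), a * M ≤ b := by
  have : Tendsto (fun M : ℝ => a * M) (𝓝[>] 0) (𝓝 (a * 0)) :=
    (tendsto_id.mono_left nhdsWithin_le_nhds).const_mul a
  exact this.eventually (ge_mem_nhds (by simpa using hb))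

lemma ev_inv (a : ℝ) {b : ℝ} (hb : 0 < b) : ∀ᶠ A in atTop, a * (A⁻¹ : ℝ) ^ 2 ≤ b := by
  have : Tendsto (fun A : ℝ => a * A⁻¹ ^ 2) atTop (𝓝 (a * 0 ^ 2)) :=
    (tendsto_inv_atTop_zero.pow 2).const_mul a
  exact this.eventually (ge_mem_nhds (by simpa using hb))

lemma ev_exp {ρ : ℝ} (hρ : 0 < ρ) (a : ℝ) {b : ℝ} (hb : 0 < b) :
    ∀ᶠ s in atTop, a * Real.exp (-ρ * s) ≤ b := by
  have : Tendsto (fun s : ℝ => a * Real.exp (-ρ * s)) atTop (𝓝 (a * 0)) :=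
    (Real.tendsto_exp_atBot.comp (tendsto_id.const_mul_atTop_of_neg (neg_neg_of_pos hρ))).const_mul a
  exact this.eventually (ge_mem_nhds (by simpa using hb))

theorem exists_cut (hV : VCutStmt) (n : ℕ) {e : ℝ} (he : 0 < e) :
    ∃ (Pt : SV →L[ℝ] SV) (Ce : ℝ), (∀ g, nA n ((PP - Pt) g) ≤ e * ip g g) ∧
      ∀ g V, |Pt g V| ≤ Ce * √(ip g g) * sqM V := by
  obtain ⟨et, C, hC, h1, h2⟩ := hV n (e / 5) (by positivity)
  have ap : ∀ g, (∑ a, (ipL (eH a)).smulRight (et a)) g = ∑ a, ip (eH a) g • et a := fun g => by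
    simp
  have hp : ∀ g, ∑ a, ip (eH a) g ^ 2 ≤ ip g g := fun g => (ip_PP_PP g).symm.trans_le (ip_PP_PP_le g)
  refine ⟨∑ a, (ipL (eH a)).smulRight (et a), 5 * C, fun g => ?_, fun g V => ?_⟩
  · rw [sub_apply, ap, PP_apply, ← sum_sub_distrib]
    simp only [← smul_sub]
    calc _ ≤ (∑ a, ip (eH a) g ^ 2) * ∑ a, nA n (eH a - et a) := by
          simp only [nA, map_sum (apW _), map_smul (apW _)]
          rw [sum_comm, mul_sum]
          exact sum_le_sum fun w _ => ip_sum_smul_le _ _ _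
      _ ≤ ip g g * e := mul_le_mul (hp g) ((sum_le_card_nsmul _ _ _ fun a _ => h1 a).trans
          (le_of_eq (by simp; ring))) (sum_nonneg fun _ _ => nA_nonneg _ _) (ip_self_nonneg _)
      _ = _ := mul_comm _ _
  · rw [ap, _root_.sum_apply]
    refine (abs_sum_le_sum_abs _ _).trans ((sum_le_card_nsmul _ _ (√(ip g g) * (C * sqM V))
      fun a _ => ?_).trans (le_of_eq (by simp; ring)))
    rw [smul_apply, smul_eq_mul, abs_mul]
    exact mul_le_mul (Real.abs_le_sqrt ((single_le_sum (f := fun a => ip (eH a) g ^ 2)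
      (fun _ _ => sq_nonneg _) (mem_univ a)).trans (hp g))) (h2 a V) (abs_nonneg _)
      (Real.sqrt_nonneg _)

lemma En_le {X : Dat} (h : X.Base) {n : ℕ} {θ s C p q r : ℝ} {G : E3 → SV} (hG : Sm G) (hs : 0 ≤ s)
    (hC : 0 ≤ C) (h0 : X.B.E n θ 0 s G G ≤ C * Real.exp (p * s))
    (h1 : X.B.E n θ (1 / 4) s G G ≤ C * Real.exp (q * s)) (hp : p ≤ r) (hq : 2 * X.δ + q ≤ r) :
    En n θ (X.om s) (X.B.sig s) G G ≤ 2 * C * Real.exp (r * s) := by
  have a0 := mul_le_mul_of_nonneg_left (Real.exp_le_exp.2 (mul_le_mul_of_nonneg_right hp hs)) hC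
  have a1 := mul_le_mul_of_nonneg_left (Real.exp_le_exp.2 (mul_le_mul_of_nonneg_right hq hs)) hC
  have a2 := mul_le_mul_of_nonneg_left h1 (Real.exp_pos (2 * X.δ * s)).le
  rw [add_mul, Real.exp_add] at a1
  rw [Dat.En_om h _ _ _ hG hG]
  linarith

theorem iterStmt2 (hA : AlgStmt) (h4 : M4Stmt) (hG : GamStmt) (hS : SobStmt) (hC : CorrStmt)
    (hK : KStmt) (h3 : M3kStmt) (h3h : M3hStmt) (h5 : M5Stmt) (hV : VCutStmt) : IterStmt2 := by
  intro Q B hB N ε hε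
  have k0 := kap_pos hB
  have k1 := kap_lt hB
  obtain ⟨n4, h4⟩ := m4_at h4 Q hB
  obtain ⟨n5, h5⟩ := h5 B hB
  obtain ⟨n, hn⟩ : ∃ n, n = n4 + n5 + 2 * N + 2 * Q.p + 8 := ⟨_, rfl⟩
  obtain ⟨θ, A0, C4, c, s1, hθ, hθ1, hC4, hc, hs1, h4⟩ := h4 n (by omega)
  obtain ⟨m, φ, C0, CK, sK, hC0, hCK, hφ, hK⟩ :=
    hK B hB n θ C4 (1 / 4 - B.kap) (by omega) hθ hθ1 (by linarith)
  obtain ⟨δ0, hδ0, h5⟩ := h5 (n + 1) (by omega) θ hθ hθ1 m φ hφ B.kap k0 k1
  obtain ⟨δ, hδ1, hδ2⟩ := exists_between (max_lt hδ0 (half_lt_self k0))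
  have hδ3 := (le_max_right _ _).trans_lt hδ1
  obtain ⟨m', ψ, C5, s5, hC5, hψ, h5⟩ := h5 δ ((le_max_left _ _).trans_lt hδ1) hδ2
  let X : Dat := ⟨Q, B, n, θ, δ, m, φ, C0⟩
  have h : X.Base := ⟨hB, hθ, hθ1, (half_pos k0).trans hδ3, hδ2, hφ, hC0⟩
  have hK1 : X.KBd CK sK := fun s hs i => ⟨(hK s hs).1 i, fun G hG pG => ((hK s hs).2 G hG pG).1 i⟩
  obtain ⟨s2, hs2, hL⟩ := lin_est hA h (s1 := max s1 sK) hC4 hCK
    (fun a ha ha1 g g' hg pg => (h4 a ha ha1 g g' hg pg).imp fun E' hE =>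
      ⟨hE.1, hE.2.1, fun A hA s hs => hE.2.2 A hA s ((le_max_left _ _).trans hs)⟩)
    (fun s hs => hK1 s ((le_max_right _ _).trans hs))
    fun s hs G hG pG => ((hK s ((le_max_right _ _).trans hs)).2 G hG pG).2
  obtain ⟨CS, sS, hCS, hsS, hS⟩ := Dat.sob_at hA hS h (by change 3 ≤ n; omega)
  obtain ⟨gc, gc', R, sg, sR, pg, pg', pR, src, bC⟩ := hC B hB Q
  have bg : ∀ n, ∃ Cg, 0 < Cg ∧ ∀ s, 0 ≤ s →
      En n 1 (X.om s) (X.B.sig s) (gc s) (gc s) ≤ Cg := fun n => by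
    obtain ⟨Cc, hCc, bC⟩ := bC n
    refine ⟨2 * Cc, by positivity, fun s hs => ?_⟩
    simpa using En_le h (p := 0) (r := 0) (sg.sm.slice s) hs hCc.le (by simpa using (bC s hs).1)
      (bC s hs).2.1 le_rfl (by change 2 * δ + _ ≤ _; linarith)
  set ρ := min (B.kap - δ) (2 * δ - B.kap)
  have hρ : 0 < ρ := lt_min (by linarith) (by linarith)
  have hρ1 : ρ ≤ B.kap - δ := min_le_left _ _
  obtain ⟨C, s3, hC, hs3, hE⟩ := Dat.step_est hA hG h (by change n / 2 + Q.p + 3 ≤ n; omega)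
    (s2 := max s2 sS) hc (hsS.trans (le_max_right _ _))
    (fun A s0 u u' S h1 h2 => hL A s0 u u' S h1 ((le_max_left _ _).trans h2)) hCS
    (fun s hs => hS s ((le_max_right _ _).trans hs)) hρ (min_le_right _ _) sg.sm pg bg
  set CW := 2 * C5 * ((C0 / 2) ^ 2 * CK) with hCW
  have CW0 : 0 < CW := by positivity
  obtain ⟨Pt, Ce, hP, bP⟩ := exists_cut hV n (e := (10 * C * CW)⁻¹) (by positivity)
  obtain ⟨Cg, hCg, bg⟩ := bg n
  obtain ⟨Cc, hCc, bC⟩ := bC n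
  obtain ⟨M, ⟨⟨m1, m2⟩, m3⟩, hM⟩ := ((((ev_small (20 * C * (2 * CW + 2) ^ 2) one_pos).and
    (ev_small (4 * Ce ^ 2 * (CS * CW)) one_pos)).and
    (ev_small (CS * (2 * Cg + 2 * (2 * CW + 2))) hε)).and self_mem_nhdsWithin).exists
  replace hM : 0 < M := hM
  obtain ⟨A, ⟨⟨a1, a2⟩, a3⟩, a4⟩ := ((((ev_inv 1 hM).and (ev_inv (10 * C * Cg) hM)).and
    (eventually_ge_atTop 1)).and (eventually_ge_atTop A0)).exists
  obtain ⟨s0, ⟨⟨⟨b1, b2⟩, b3⟩, b4⟩, b5⟩ := (((((ev_exp hρ A one_pos).and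
    (ev_exp hρ (5 * C * (8 * Cc)) hM)).and (ev_exp hρ (5 * C * CW) one_pos)).and
    (eventually_ge_atTop s3)).and (eventually_ge_atTop s5)).exists
  obtain ⟨aa, h5⟩ := h5 s0 b5
  have t1 : s2 ≤ s0 := (le_max_left _ _).trans (hs3.trans b4)
  have t2 : sS ≤ s0 := (le_max_right _ _).trans (hs3.trans b4)
  have t0 := hsS.trans t2
  have t3 : sK ≤ s0 := (le_max_right _ _).trans (hs2.trans t1)
  have hK2 : X.KBd CK s0 := fun s hs => hK1 s (t3.trans hs)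
  have bg' : ∀ s, s0 ≤ s → X.EE n s (gc s) (gc s) ≤ Cg := fun s hs =>
    (Dat.EE_mono hA h le_rfl hθ1 s (sg.sm.slice s)).trans (bg s (t0.trans hs))
  let Y : It := ⟨X, m', ψ, gc, gc', R, Pt, A, s0, aa⟩
  have hY : Y.Reg := ⟨h, hψ, sg, sR, pg, pg', pR, a3, t0⟩
  have hN : Y.Num M C CW := by
    refine ⟨hM, hC, CW0, fun a v c W W' hv hc hW s hs => ?_, ⟨ρ, 8 * Cc, _,
      fun A' s' l1 l2 a1 a2 b f V1 V2 W S1 u u' h1 h2 h3 =>
        hE A' s' l1 l2 a1 a2 b f V1 V2 W S1 u u' (a4.trans h1) h2 (b4.trans h3),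
      b1, fun s hs => ?_, b2, b3, by positivity, hP, le_of_eq (by field_simp)⟩,
      (one_mul _).symm.trans_le a1, le_trans ?_ a2, m1⟩
    · have := (h5 c (C0 / 2 * √(CK * a)) (by positivity) fun s hs i => by
        rw [hc]; exact Dat.cc_bd hA h hCK.le hK2 le_rfl hv hs i).2 W W' hW.smd hW.per hW.hyd
        hW.init hW.eqn s hs
      have ha := hv.nonneg h
      rw [mul_pow, Real.sq_sqrt (by positivity)] at this
      refine (En_le h (p := 0) (r := 0) (hW.smd.sm.slice s) (t0.trans hs) (by positivity)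
        (by simpa using this.2) this.1 le_rfl (by change 2 * δ + _ ≤ _; linarith)).trans
        (le_of_eq ?_)
      rw [zero_mul, Real.exp_zero, hCW]
      ring
    · have s' := t0.trans hs
      have sT := (sg.sm'.add (hA.smC_tr _ _ hB.fldC sg.sm)).slice s
      have q1 := Dat.EE_sub_le h n s (sR.slice s) (sT.const_smul A⁻¹)
      have hr := hB.r_gt
      have q2 := (Dat.EE_mono hA h le_rfl hθ1 s (sR.slice s)).trans (En_le h (r := -2 * ρ)
        (sR.slice s) s' hCc.le ((bC s s').2.2 0 (Or.inl rfl)).2 ((bC s s').2.2 _ (Or.inr rfl)).2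
        (by linarith) (by change 2 * δ + _ ≤ _; linarith))
      have q3 := (Dat.EE_mono hA h le_rfl hθ1 s sT).trans (En_le h (r := -2 * ρ) sT s' hCc.le
        ((bC s s').2.2 0 (Or.inl rfl)).1 ((bC s s').2.2 _ (Or.inr rfl)).1
        (by linarith) (by change 2 * δ + _ ≤ _; linarith))
      have q4 := mul_le_mul (pow_le_one₀ (n := 2) (by positivity) (inv_le_one_of_one_le₀ a3)) q3
        (Dat.EE_nonneg h _ _ _) zero_le_one
      rw [Dat.EE, Dat.EE, Dat.EE, En_smul_smul sT] at q1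
      refine le_trans q1 ?_
      unfold Dat.EE at q2 q4
      linarith
    · have := mul_le_mul_of_nonneg_left (bg' s0 le_rfl)
        (show 0 ≤ 10 * C * A⁻¹ ^ 2 by positivity)
      refine le_trans (le_of_eq ?_) (this.trans (le_of_eq (by ring)))
      exact (mul_assoc _ _ _).symm
  obtain ⟨h, h', g, e, hI⟩ := It.iter hA h3 h3h hY hN (N := N) (ε := ε)
    (by change _ ≤ n; omega) hCS (fun s hs => hS s (t2.trans hs)) hCK hK2 hC5 src bg'
    (fun c D hD hc => (h5 c D hD hc).1) bP (by linarith) (by linarith)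
  exact ⟨A, s0, h, h', g, e, by linarith, t0, hI⟩

end Pool.Agent.MP_187b32_an.Pic
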