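import Pool.Agent.MP_187b32_an.Pic.Step

/-! The iteration map: existence, invariant ball, contraction. -/

set_option autoImplicit false

open Pool.Agent.Boltz Finset

noncomputable section

namespace Pool.Agent.MP_187b32_an.Pic

lemma tr_sub (F : Fld) {G H : E3 → SV} (hG : Sm G) (hH : Sm H) (x : E3) :
    F.tr (fun y => G y - H y) x = F.tr G x - F.tr H x := by
  have := Lin.tr_add F (hG.sub hH).dif hH.dif x
  simp only [sub_add_cancel] at this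
  exact eq_sub_of_add_eq this.symm

lemma per_Bper (B : BgD) (φ : E3 → SV) (s : ℝ) : Per (B.per φ s) := fun i x => by
  simp only [BgD.per, B.cut.per_chi i x, B.cut.per_pi i x]

namespace Dat

variable {X : Dat} {A s0 : ℝ}

lemma cc_sub (hA : AlgStmt) (h : X.Base) (s : ℝ) {G H : E3 → SV} (hG : Sm G) (hH : Sm H)
    (i : Fin X.m) : X.cc s (fun x => G x - H x) i = X.cc s G i - X.cc s H i := by
  have sφ := (hA.smC_per X.B _ (h.inD i).1).slice s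
  simp only [cc, BgD.E]
  rw [En_comm, En_sub_left (h.c_oma _ s) (h.c_sig s) hG hH sφ, En_comm, En_comm (G := H), mul_sub]

lemma Kin.sub (hA : AlgStmt) (h : X.Base) {u u' S w w' T : ℝ → E3 → SV} (hu : X.Kin A s0 u u' S)
    (hw : X.Kin A s0 w w' T) : X.Kin A s0 (fun s x => u s x - w s x) (fun s x => u' s x - w' s x)
      fun s x => S s x - T s x := by
  refine ⟨hu.smd.sub hw.smd, fun s => (hu.per s).map₂ (hw.per s) (· - ·),
    fun s => (hu.per' s).map₂ (hw.per' s) (· - ·), hu.sm.sub hw.sm, fun s hs x => ?_⟩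
  simp only [cc_sub hA h s (hu.smd.sm.slice s) (hw.smd.sm.slice s), sub_smul, sum_sub_distrib,
    tr_sub _ (hu.smd.sm.slice s) (hw.smd.sm.slice s), map_sub, smul_sub, ← hu.eqn s hs x,
    ← hw.eqn s hs x]
  abel

lemma Kin.congr {u u' S T : ℝ → E3 → SV} (hu : X.Kin A s0 u u' S) (e : ∀ s x, S s x = T s x) :
    X.Kin A s0 u u' T := by
  have : S = T := funext fun s => funext (e s)
  exact this ▸ hu

lemma cc_bd (hA : AlgStmt) (h : X.Base) {CK s1 a s : ℝ} (hCK : 0 ≤ CK) (hK : X.KBd CK s1)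
    (hs1 : s1 ≤ s0) {v : ℝ → E3 → SV} (hv : X.Bd A s0 a v) (hs : s0 ≤ s) (i : Fin X.m) :
    |X.cc s (v s) i| ≤ X.C0 / 2 * √(CK * a) * Real.exp (-X.δ * s) := by
  have h1 := cc_sq_le hA h hK (hs1.trans hs) (hv.sm.slice s) i
  have h2 := hv.ee s hs
  rw [EE_eq h _ _ (hv.sm.slice s) (hv.sm.slice s)] at h2
  have h3 := mul_le_mul_of_nonneg_left (le_trans (le_add_of_nonneg_left (E_nonneg h _ _ _ _)) h2)
    (show 0 ≤ CK * Real.exp (-X.δ * s) ^ 2 by positivity)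
  have e : Real.exp (-X.δ * s) ^ 2 * Real.exp (2 * X.δ * s) = 1 := by
    rw [← Real.exp_nat_mul, ← Real.exp_add, Real.exp_eq_one_iff]; push_cast; ring
  have := h.C0_pos
  rw [cc, abs_mul, abs_of_pos (by positivity), mul_assoc]
  refine mul_le_mul_of_nonneg_left (abs_le_of_sq_le_sq ?_ (by positivity)) (by positivity)
  rw [mul_pow, Real.sq_sqrt (mul_nonneg hCK (hv.nonneg h))]
  rw [mul_assoc, ← mul_assoc (_ ^ 2), e] at h3
  linarith

end Dat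

/-- All the data of the iteration. -/
structure It extends Dat where
  m' : ℕ
  ψ : Fin m' → E3 → SV
  gc : ℝ → E3 → SV
  gc' : ℝ → E3 → SV
  R : ℝ → E3 → SV
  Pt : SV →L[ℝ] SV
  A : ℝ
  s0 : ℝ
  aa : C(ℝ, Fin m → ℝ) →ₗ[ℝ] (Fin m' → ℝ)

namespace It

variable (Y : It)

/-- Solutions of the hydrodynamic problem with the good data. -/
structure Hyd (c : C(ℝ, Fin Y.m → ℝ)) (W W' : ℝ → E3 → SV) : Prop where
  smd : SmD W W'
  per : ∀ s, Per (W s)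
  per' : ∀ s, Per (W' s)
  hyd : ∀ s x, PP (W s x) = W s x
  init : ∀ x, W Y.s0 x = ∑ i, Y.aa c i • Y.B.per (Y.ψ i) Y.s0 x
  eqn : ∀ s, Y.s0 ≤ s → ∀ x,
    W' s x + PP ((Y.B.fld s).tr (W s) x) = ∑ i, c s i • Y.B.per (Y.φ i) s x

/-- The fixed part of the forcing. -/
def S1 (s : ℝ) (x : E3) : SV := Y.R s x - Y.A⁻¹ • (Y.gc' s x + (Y.B.fld s).tr (Y.gc s) x)

/-- The whole perturbation. -/
def full (W v : ℝ → E3 → SV) (s : ℝ) (x : E3) : SV := Y.A⁻¹ • Y.gc s x + (W s x + v s x)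

/-- The forcing of the kinetic problem. -/
def frc (W v : ℝ → E3 → SV) (s : ℝ) (x : E3) : SV :=
  Y.S1 s x + (Y.A * Y.B.k1 s x / 2) • Y.Q.G (Y.full W v s x) (Y.full W v s x) - Y.mic s (W s) x

/-- One step of the iteration. -/
structure Step (v : ℝ → E3 → SV) (c : C(ℝ, Fin Y.m → ℝ)) (W W' u u' : ℝ → E3 → SV) : Prop where
  hc : ∀ s i, c s i = Y.cc s (v s) i
  hyd : Y.Hyd c W W'
  kin : Y.Kin Y.A Y.s0 u u' (Y.frc W v)
  init : ∀ x, u Y.s0 x = -(Y.A⁻¹ • Y.gc Y.s0 x) - (PP - Y.Pt) (W Y.s0 x)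

/-- Qualitative assumptions. -/
structure Reg : Prop where
  base : Y.Base
  inD : ∀ i, InD (Y.ψ i)
  smd : SmD Y.gc Y.gc'
  sm : SmC Y.R
  per : ∀ s, Per (Y.gc s)
  per' : ∀ s, Per (Y.gc' s)
  perR : ∀ s, Per (Y.R s)
  A_ge : 1 ≤ Y.A
  s0_ge : 0 ≤ Y.s0

/-- Quantitative assumptions. -/
structure Num (M C CW : ℝ) : Prop where
  M_pos : 0 < M
  C_pos : 0 < C
  CW_pos : 0 < CW
  hydro : ∀ (a : ℝ) (v : ℝ → E3 → SV) (c : C(ℝ, Fin Y.m → ℝ)) (W W' : ℝ → E3 → SV),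
    Y.Bd Y.A Y.s0 a v → (∀ s i, c s i = Y.cc s (v s) i) → Y.Hyd c W W' →
    ∀ s, Y.s0 ≤ s → Y.EE (Y.n + 1) s (W s) (W s) ≤ CW * a
  est : ∃ ρ f e : ℝ, Y.StepEst Y.gc ρ C Y.A Y.s0 ∧ Y.A * Real.exp (-ρ * Y.s0) ≤ 1 ∧
    (∀ s, Y.s0 ≤ s → Y.EE Y.n s (Y.S1 s) (Y.S1 s) ≤ f * Real.exp (-2 * ρ * s)) ∧
    5 * C * f * Real.exp (-ρ * Y.s0) ≤ M ∧ 5 * C * CW * Real.exp (-ρ * Y.s0) ≤ 1 ∧
    0 ≤ e ∧ (∀ g, nA Y.n ((PP - Y.Pt) g) ≤ e * ip g g) ∧ 10 * C * e * CW ≤ 1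
  inv : Y.A⁻¹ ^ 2 ≤ M
  corr : 10 * C * (Y.A⁻¹ ^ 2 * Y.EE Y.n Y.s0 (Y.gc Y.s0) (Y.gc Y.s0)) ≤ M
  small : 20 * C * (2 * CW + 2) ^ 2 * M ≤ 1

variable {Y} {v w W W' U U' u u' z z' : ℝ → E3 → SV} {c d : C(ℝ, Fin Y.m → ℝ)} {M C CW a : ℝ}

lemma Hyd.sub (hW : Y.Hyd c W W') (hU : Y.Hyd d U U') :
    Y.Hyd (c - d) (fun s x => W s x - U s x) fun s x => W' s x - U' s x := by
  refine ⟨hW.smd.sub hU.smd, fun s => (hW.per s).map₂ (hU.per s) (· - ·),
    fun s => (hW.per' s).map₂ (hU.per' s) (· - ·), fun s x => by rw [map_sub, hW.hyd, hU.hyd],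
    fun x => ?_, fun s hs x => ?_⟩
  · simp only [hW.init, hU.init, map_sub, Pi.sub_apply, sub_smul, sum_sub_distrib]
  · simp only [ContinuousMap.sub_apply, Pi.sub_apply, sub_smul, sum_sub_distrib,
      tr_sub _ (hW.smd.sm.slice s) (hU.smd.sm.slice s), map_sub, ← hW.eqn s hs x, ← hU.eqn s hs x]
    abel

lemma sm_S1 (hA : AlgStmt) (h : Y.Reg) : SmC Y.S1 :=
  h.sm.sub ((h.smd.sm'.add (hA.smC_tr _ _ h.base.ok.fldC h.smd.sm)).const_smul _)

lemma sm_full (h : Y.Reg) (hW : SmC W) (hv : SmC v) : SmC (Y.full W v) :=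
  (h.smd.sm.const_smul _).add (hW.add hv)

lemma per_full (h : Y.Reg) {s : ℝ} (hW : Per (W s)) (hv : Per (v s)) : Per (Y.full W v s) :=
  fun i x => by simp only [full, h.per s i x, hW i x, hv i x]

theorem exists_step (hA : AlgStmt) (h3 : M3kStmt) (h3h : M3hStmt) (h : Y.Reg) (sv : SmC v)
    (pv : ∀ s, Per (v s)) : ∃ c W W' u u', Y.Step v c W W' u u' := by
  have ok := h.base.ok
  have sφ := fun i => hA.smC_per Y.B _ (h.base.inD i).1
  have sψ := fun i => (hA.smC_per Y.B _ (h.inD i).1).slice Y.s0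
  have cc : ∀ i, Continuous fun s => Y.cc s (v s) i := fun i =>
    continuous_const.mul (cont_En (ok.sm_om _).sm.cont ok.sm_sig.sm.cont (sφ i) sv)
  set c : C(ℝ, Fin Y.m → ℝ) := ⟨fun s i => Y.cc s (v s) i, continuous_pi cc⟩
  obtain ⟨W, W', smd, pW, pW', hyd, iW, eW⟩ := h3h Y.B.fld Y.s0
    (fun s x => ∑ i, c s i • Y.B.per (Y.φ i) s x)
    (fun x => ∑ i, Y.aa c i • Y.B.per (Y.ψ i) Y.s0 x) ok.fldC
    (SmC.sum _ fun i _ => (SmC.of_time (cc i)).smul (sφ i))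
    (fun s => Per.sum _ fun i _ => (per_Bper _ _ s).map _)
    (fun s x => by simp only [map_sum, map_smul, BgD.per, (h.base.inD _).2.2])
    (Sm.sum _ fun i _ => (sψ i).const_smul _) (Per.sum _ fun i _ => (per_Bper _ _ _).map _)
    fun x => by simp only [map_sum, map_smul, BgD.per, (h.inD _).2.2]
  have sf := sm_full h smd.sm sv
  have sS : SmC (Y.frc W v) := ((sm_S1 hA h).add (SmC.smul (by
    simpa only [div_eq_mul_inv, smul_eq_mul] using (ok.sm_k1.const_smul Y.A).mul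
      (SmC.const (2 : ℝ)⁻¹)) (SmC.bilin _ Y.Q.cont sf sf))).sub (Dat.sm_mic hA h.base smd.sm)
  obtain ⟨u, u', su, pu, pu', iu, eu⟩ := h3 Y.Q Y.B.fld (fun s x => Y.A * Y.B.k1 s x)
    (Y.B.om (1 / 4)) Y.B.sig Y.n Y.m Y.θ (Y.C0 / 2) Y.s0 (fun i => Y.B.per (Y.φ i)) (Y.frc W v)
    (fun x => -(Y.A⁻¹ • Y.gc Y.s0 x) - (PP - Y.Pt) (W Y.s0 x)) ok.fldC (ok.sm_k1.const_smul _)
    (fun s => (per_k1 ok s).map _)
    (fun s x => mul_pos (zero_lt_one.trans_le h.A_ge) (k1_pos ok s x)) (ok.sm_om _).sm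
    (Lin.per_om _ _) ok.sm_sig.sm (Lin.per_sig _) sφ (fun i => per_Bper _ _) sS
    (fun s i x => by
      simp only [frc, S1, Dat.mic, h.perR s i x, h.per' s i x, per_k1 ok s i x,
        hA.per_tr _ _ (ok.fldC.reg s) (h.per s) i x, hA.per_tr _ _ (ok.fldC.reg s) (pW s) i x,
        per_full h (pW s) (pv s) i x])
    (((h.smd.sm.slice _).const_smul _).neg.sub ((smd.sm.slice _).clm _))
    fun i x => by simp only [h.per _ i x, pW _ i x]
  exact ⟨c, W, W', u, u', fun _ _ => rfl, ⟨smd, pW, pW', hyd, fun x => congrFun iW x, eW⟩,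
    ⟨su, pu, pu', sS, eu⟩, fun x => congrFun iu x⟩

lemma EE_cut (hA : AlgStmt) (h : Y.Reg) {e : ℝ} (he : 0 ≤ e)
    (hP : ∀ g, nA Y.n ((PP - Y.Pt) g) ≤ e * ip g g) (s : ℝ) {G : E3 → SV} (hG : Sm G) :
    Y.EE Y.n s (fun x => (PP - Y.Pt) (G x)) (fun x => (PP - Y.Pt) (G x))
      ≤ e * Y.EE (Y.n + 1) s G G := by
  refine le_trans (En_le_of_le (h.base.c_om s) (h.base.c_om s) (h.base.c_sig s) (hG.clm _) hG
    fun x => ?_) (mul_le_mul_of_nonneg_left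
      (Dat.EE_mono hA h.base (Nat.le_succ _) le_rfl s hG) he)
  have := mul_le_mul_of_nonneg_left (hA.clm _ _ _ (Y.B.sig s) _ _ h.base.θ_pos.le he hG hP x)
    (Dat.om_pos (X := Y.toDat) s x).le
  linarith

lemma Step.bd (hA : AlgStmt) (h : Y.Reg) (hN : Y.Num M C CW) (hv : Y.Bd Y.A Y.s0 a v)
    (hc : ∀ s i, c s i = Y.cc s (v s) i) (hW : Y.Hyd c W W') (hw : Y.Bd Y.A Y.s0 a w) :
    Y.Bd Y.A Y.s0 ((2 * CW + 2) * a) fun s x => W s x + w s x :=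
  ((Dat.Bd.of_hyd hA h.base hW.smd.sm hW.per hW.hyd (hN.hydro a v c W W' hv hc hW)).add hA h.base
    (zero_le_one.trans h.A_ge) hw).mono (le_of_eq (by ring))

theorem ball (hA : AlgStmt) (h : Y.Reg) (hN : Y.Num M C CW) (hv : Y.Bd Y.A Y.s0 M v)
    (hs : Y.Step v c W W' u u') : Y.Bd Y.A Y.s0 M u := by
  obtain ⟨ρ, f, e, hE, n1, bS, n5, n6, he, hP, n4⟩ := hN.est
  have hM := hN.M_pos
  have hC := hN.C_pos
  have hCW := hN.CW_pos
  have bW := hN.hydro M v c W W' hv hs.hc hs.hyd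
  have bV := Step.bd hA h hN hv hs.hc hs.hyd hv
  have hl : Y.A⁻¹ ^ 2 ≤ (2 * CW + 2) * M := hN.inv.trans (by nlinarith)
  refine (hE _ _ _ _ _ _ _ f _ _ _ _ u u' le_rfl h.A_ge le_rfl n1 hl hl bV bV hs.hyd.smd.sm
    hs.hyd.hyd bW (sm_S1 hA h) bS hs.kin).mono ?_
  have sg := h.smd.sm.slice Y.s0
  have sW := hs.hyd.smd.sm.slice Y.s0
  have h1 := Dat.EE_sub_le h.base Y.n Y.s0 (sg.const_smul Y.A⁻¹).neg (sW.clm (PP - Y.Pt))
  rw [Dat.EE, Dat.EE, En_neg_neg (sg.const_smul _), En_smul_smul sg, ← funext hs.init] at h1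
  have h2 := (EE_cut hA h he hP Y.s0 sW).trans (mul_le_mul_of_nonneg_left (bW _ le_rfl) he)
  have h3 := mul_le_mul_of_nonneg_left (h1.trans (add_le_add le_rfl
    (mul_le_mul_of_nonneg_left h2 zero_le_two))) hC.le
  have h4 := mul_le_mul_of_nonneg_right n4 hM.le
  have h5 := mul_le_mul_of_nonneg_right n6 hM.le
  have h6 := mul_le_mul_of_nonneg_right hN.small hM.le
  have h7 := hN.corr
  have h8 : 0 ≤ C * (2 * CW + 2) ^ 2 * M * M := by positivity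
  unfold Dat.EE at *
  linarith

theorem contr (hA : AlgStmt) (h : Y.Reg) (hN : Y.Num M C CW) (hv : Y.Bd Y.A Y.s0 M v)
    (hw : Y.Bd Y.A Y.s0 M w) (hs : Y.Step v c W W' u u') (ht : Y.Step w d U U' z z')
    (hd : Y.Bd Y.A Y.s0 a fun s x => v s x - w s x) :
    (∀ s, Y.s0 ≤ s → Y.EE (Y.n + 1) s (fun x => W s x - U s x) (fun x => W s x - U s x) ≤ CW * a) ∧
      Y.Bd Y.A Y.s0 (a / 2) fun s x => u s x - z s x := by
  obtain ⟨ρ, f, e, hE, n1, -, -, n6, he, hP, n4⟩ := hN.est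
  have hM := hN.M_pos
  have hC := hN.C_pos
  have hCW := hN.CW_pos
  have ha := hd.nonneg h.base
  have hc : ∀ s i, (c - d) s i = Y.cc s (fun x => v s x - w s x) i := fun s i => by
    rw [Dat.cc_sub hA h.base s (hv.sm.slice s) (hw.sm.slice s), ← hs.hc, ← ht.hc]
    rfl
  have hy := hs.hyd.sub ht.hyd
  have bW := hN.hydro a _ _ _ _ hd hc hy
  have bV := (Step.bd hA h hN hv hs.hc hs.hyd hv).add hA h.base (zero_le_one.trans h.A_ge)
    (Step.bd hA h hN hw ht.hc ht.hyd hw)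
  have hl : (2 * Y.A⁻¹) ^ 2 ≤ 2 * ((2 * CW + 2) * M) + 2 * ((2 * CW + 2) * M) := by
    nlinarith [hN.inv]
  refine ⟨bW, (hE _ _ 0 _ _ _ _ 0 _ _ _ (fun _ _ => 0) _ _ le_rfl h.A_ge le_rfl n1
    (by rw [zero_pow two_ne_zero]; positivity) hl (Step.bd hA h hN hd hc hy hd) bV hy.smd.sm hy.hyd
    bW (SmC.const 0) (fun s _ => by rw [zero_mul]; exact En_zero_left.le)
    ((hs.kin.sub hA h.base ht.kin).congr fun s x => ?_)).mono ?_⟩
  · have e1 : (0 : ℝ) • Y.gc s x + (W s x - U s x + (v s x - w s x))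
        = Y.full W v s x - Y.full U w s x := by simp only [full]; module
    have e2 : (2 * Y.A⁻¹) • Y.gc s x + (W s x + v s x + (U s x + w s x))
        = Y.full W v s x + Y.full U w s x := by simp only [full]; module
    rw [e1, e2]
    simp only [frc, Dat.mic, tr_sub _ (hs.hyd.smd.sm.slice s) (ht.hyd.smd.sm.slice s), map_sub,
      map_add, LinearMap.sub_apply, Y.Q.symm (Y.full U w s x) (Y.full W v s x)]
    module
  · have e0 : (fun x => u Y.s0 x - z Y.s0 x) = fun x => -(PP - Y.Pt) (W Y.s0 x - U Y.s0 x) :=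
      funext fun x => by rw [hs.init, ht.init, map_sub (PP - Y.Pt)]; abel
    have sW := hy.smd.sm.slice Y.s0
    have h2 := (EE_cut hA h he hP Y.s0 sW).trans (mul_le_mul_of_nonneg_left (bW _ le_rfl) he)
    rw [Dat.EE, ← En_neg_neg (sW.clm _), ← e0] at h2
    have h3 := mul_le_mul_of_nonneg_left h2 hC.le
    have h4 := mul_le_mul_of_nonneg_right n4 ha
    have h5 := mul_le_mul_of_nonneg_right n6 ha
    have h6 := mul_le_mul_of_nonneg_right hN.small ha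
    unfold Dat.EE at *
    linarith

end It

end Pool.Agent.MP_187b32_an.Pic
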