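import Pool.Agent.MP_187b32_an.Pic.Map
import Pool.Agent.MP_187b32_an.M7.Spec

/-! The sequence of iterates and its properties. -/

set_option autoImplicit false

open Pool.Agent.Boltz Finset

noncomputable section

namespace Pool.Agent.MP_187b32_an.Pic

open KK (term_le_bb ip_le_bb)

lemma L_hyd (Q : CollOp) {f : SV} (h : PP f = f) : Q.L f = 0 := by
  apply ip_self_eq_zero
  rw [Q.L_symm, ← h, ip_PP, Q.L_eq (Q.L _), map_neg, Q.hyd, neg_zero, map_zero]

namespace Dat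

variable {X : Dat} {CS CK s0 s s1 : ℝ}

lemma small_of (hS : X.Sob CS s0) (hs0 : 0 ≤ s0) (hs : s ∈ Set.Icc s0 s1) {N L : ℕ}
    (hn : L + N + 3 ≤ X.n) {G : E3 → SV} (hG : Sm G) (pG : Per G) {u : List (Fin 3)}
    (hu : u.length ≤ L) (x : E3) :
    nA N (dXw u G x) ≤ Real.exp s1 ^ (2 * L) * (CS * X.EE X.n s G G) := by
  have h1 := (term_le_bb (n := L + N) (σ := X.B.sig s) (G := G) zero_le_one u N (by omega) x).trans
    (hS s hs.1 _ G hn hG pG x).1
  have h2 : 1 ≤ Real.exp s1 := Real.one_le_exp (hs0.trans (hs.1.trans hs.2))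
  have h3 : 1 ≤ Real.exp s1 * X.B.sig s x := by
    refine le_trans ?_ (mul_le_mul_of_nonneg_left (exp_le_sig s x) (Real.exp_pos _).le)
    rw [← Real.exp_add]
    exact Real.one_le_exp (by linarith [hs.2])
  have h4 := one_le_pow₀ (n := 2 * u.length) h3
  have h5 : Real.exp s1 ^ (2 * u.length) ≤ Real.exp s1 ^ (2 * L) := pow_le_pow_right₀ h2 (by omega)
  have h6 := nA_nonneg N (dXw u G x)
  have h7 := pow_pos (Lin.sig_pos X.B s x) (2 * u.length)
  rw [one_pow, one_mul] at h1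
  calc _ ≤ (Real.exp s1 * X.B.sig s x) ^ (2 * u.length) * nA N (dXw u G x) :=
        le_mul_of_one_le_left h6 h4
    _ ≤ Real.exp s1 ^ (2 * L) * (X.B.sig s x ^ (2 * u.length) * nA N (dXw u G x)) := by
        rw [mul_pow, mul_assoc]; gcongr
    _ ≤ _ := by gcongr

lemma EE_fin (hA : AlgStmt) (h : X.Base) (hCK : 0 ≤ CK) (hK : X.KBd CK s0) (hs0 : 0 ≤ s0)
    (hs : s0 ≤ s) {d : Fin X.m → ℝ} {D : ℝ} (hD : 0 ≤ D)
    (hd : ∀ i, |d i| ≤ D * Real.exp (-X.δ * s)) :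
    X.EE X.n s (fun x => ∑ i, d i • X.B.per (X.φ i) s x) (fun x => ∑ i, d i • X.B.per (X.φ i) s x)
      ≤ 2 * CK * X.m ^ 2 * D ^ 2 := by
  have sφ := fun i => (hA.smC_per X.B _ (h.inD i).1).slice s
  have se := Sm.sum univ fun i _ => (sφ i).const_smul (d i)
  have pe := Per.sum univ fun i _ => (per_Bper X.B (X.φ i) s).map (d i • ·)
  set G := fun x => ∑ i, d i • X.B.per (X.φ i) s x with hG
  set r := √(CK * X.B.E X.n X.θ (1 / 4) s G G) with hr
  set y := X.m * (D * Real.exp (-X.δ * s)) with hy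
  have key : ∀ a, (∀ i, X.B.E X.n X.θ a s (X.B.per (X.φ i) s) G ^ 2
      ≤ CK * X.B.E X.n X.θ (1 / 4) s G G) → X.B.E X.n X.θ a s G G ≤ y * r := fun a ha => by
    have e : X.B.E X.n X.θ a s G G = _ := En_sum_left (h.c_oma a s) (h.c_sig s) univ sφ se d
    rw [e, hy, mul_assoc]
    refine (sum_le_card_nsmul _ _ (D * Real.exp (-X.δ * s) * r) fun i _ => ?_).trans (by simp)
    refine (le_abs_self _).trans ?_
    rw [abs_mul]
    exact mul_le_mul (hd i) (Real.abs_le_sqrt (ha i)) (abs_nonneg _) (by positivity)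
  have k1 := key _ (cc_sq_le hA h hK hs se)
  have k0 := key _ fun i => (hK s hs i).2 G se pe
  have r0 : 0 ≤ r := Real.sqrt_nonneg _
  have y0 : 0 ≤ y := by positivity
  have r2 : r * r ≤ CK * y * r := by
    rw [hr, Real.mul_self_sqrt (mul_nonneg hCK (E_nonneg h _ _ _ _)), mul_assoc]
    exact mul_le_mul_of_nonneg_left k1 hCK
  have r3 : r ≤ CK * y := by
    rcases r0.eq_or_lt with e | e
    · rw [← e]; positivity
    · exact le_of_mul_le_mul_right r2 e
  have r4 := mul_le_mul_of_nonneg_left r3 y0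
  have e : Real.exp (-X.δ * s) ^ 2 * Real.exp (2 * X.δ * s) = 1 := by
    rw [← Real.exp_nat_mul, ← Real.exp_add, Real.exp_eq_one_iff]; push_cast; ring
  have e1 : Real.exp (-X.δ * s) ^ 2 ≤ 1 := pow_le_one₀ (Real.exp_pos _).le
    (Real.exp_le_one_iff.2 (by nlinarith [h.δ_pos]))
  have e2 := mul_le_mul_of_nonneg_left e1 (show 0 ≤ CK * X.m ^ 2 * D ^ 2 by positivity)
  have e3 := mul_le_mul_of_nonneg_left (k1.trans r4) (Real.exp_pos (2 * X.δ * s)).le
  have e4 : Real.exp (2 * X.δ * s) * (y * (CK * y)) = CK * X.m ^ 2 * D ^ 2 *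
      (Real.exp (-X.δ * s) ^ 2 * Real.exp (2 * X.δ * s)) := by rw [hy]; ring
  have e5 : y * (CK * y) = CK * X.m ^ 2 * D ^ 2 * Real.exp (-X.δ * s) ^ 2 := by rw [hy]; ring
  rw [EE_eq h _ _ se se]
  rw [e4, e] at e3
  linarith

end Dat

namespace It

variable {Y : It} {M C CW : ℝ}

theorem exists_seq (hA : AlgStmt) (h3 : M3kStmt) (h3h : M3hStmt) (h : Y.Reg) (hN : Y.Num M C CW) :
    ∃ (v W W' u' : ℕ → ℝ → E3 → SV) (c : ℕ → C(ℝ, Fin Y.m → ℝ)),
      (∀ j, Y.Step (v j) (c j) (W j) (W' j) (v (j + 1)) (u' j)) ∧ (∀ j, Y.Bd Y.A Y.s0 M (v j)) ∧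
      ∀ J j l, J ≤ j → J ≤ l → Y.Bd Y.A Y.s0 (4 * M / 2 ^ J) fun s x => v j s x - v l s x := by
  choose c W W' u u' hs using fun v : {v // Y.Bd Y.A Y.s0 M v} =>
    exists_step hA h3 h3h h v.2.sm v.2.per
  have h0 : Y.Bd Y.A Y.s0 M fun _ _ => 0 := Dat.Bd.of_hyd hA h.base (SmC.const 0)
    (fun _ => Per.const _) (fun _ _ => map_zero _) fun _ _ => En_zero_left.le.trans hN.M_pos.le
  let v : ℕ → {v // Y.Bd Y.A Y.s0 M v} := fun j =>
    Nat.rec ⟨_, h0⟩ (fun _ w => ⟨u w, ball hA h hN w.2 (hs w)⟩) j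
  refine ⟨fun j => (v j).1, fun j => W (v j), fun j => W' (v j), fun j => u' (v j),
    fun j => c (v j), fun j => hs (v j), fun j => (v j).2, fun J => ?_⟩
  induction J with
  | zero =>
    exact fun j l _ _ => ((v j).2.sub hA h.base (zero_le_one.trans h.A_ge) (v l).2).mono
      (le_of_eq (by ring))
  | succ J ih =>
    intro j l hj hl
    obtain ⟨j, rfl⟩ : ∃ k, j = k + 1 := ⟨j - 1, by omega⟩
    obtain ⟨l, rfl⟩ : ∃ k, l = k + 1 := ⟨l - 1, by omega⟩
    exact (contr hA h hN (v j).2 (v l).2 (hs _) (hs _) (ih j l (by omega) (by omega))).2.mono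
      (le_of_eq (by ring))

theorem iter (hA : AlgStmt) (h3 : M3kStmt) (h3h : M3hStmt) (h : Y.Reg) (hN : Y.Num M C CW)
    {CS CK Cg C5 Ce ε : ℝ} {N : ℕ} (hn : 2 * N + 5 ≤ Y.n) (hCS : 0 < CS) (hS : Y.Sob CS Y.s0)
    (hCK : 0 < CK) (hK : Y.KBd CK Y.s0) (hC5 : 0 < C5)
    (src : ∀ s x, (Y.B.fld s).src x = Y.B.k1 s x • Y.Q.L (Y.gc s x) + Y.R s x)
    (bg : ∀ s, Y.s0 ≤ s → Y.EE Y.n s (Y.gc s) (Y.gc s) ≤ Cg)
    (ba : ∀ (c : C(ℝ, Fin Y.m → ℝ)) (D : ℝ), 0 ≤ D →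
      (∀ s, Y.s0 ≤ s → ∀ i, |c s i| ≤ D * Real.exp (-Y.δ * s)) → ∀ i, |Y.aa c i| ≤ C5 * D)
    (bP : ∀ g V, |Y.Pt g V| ≤ Ce * √(ip g g) * sqM V) (n8 : 4 * Ce ^ 2 * (CS * (CW * M)) ≤ 1)
    (n9 : CS * ((2 * Cg + 2 * (2 * CW + 2)) * M) ≤ ε) :
    ∃ h h' g e : ℕ → ℝ → E3 → SV, Iter Y.Q Y.B.fld (fun s x => Y.A * Y.B.k1 s x) Y.s0 ε N h h' g e ∧
      Lag Y.B.fld Y.s0 N h g e := by
  obtain ⟨v, W, W', u', c, hs, hv, hd⟩ := exists_seq hA h3 h3h h hN
  have hM := hN.M_pos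
  have hCW := hN.CW_pos
  have hC0 := h.base.C0_pos
  have hAp := zero_lt_one.trans_le h.A_ge
  have sφ := fun i => hA.smC_per Y.B _ (h.base.inD i).1
  have sψ := fun i => (hA.smC_per Y.B _ (h.inD i).1).slice Y.s0
  have sW := fun j => (hs j).hyd.smd.sm
  have sh := fun j l => sm_full h (sW j) (hv l).sm
  have ph := fun j l s => per_full h ((hs j).hyd.per s) ((hv l).per s)
  have se : ∀ j, SmC fun s x => ∑ i, (c j s i - c (j + 1) s i) • Y.B.per (Y.φ i) s x := fun j =>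
    SmC.sum _ fun i _ => (SmC.of_time (by fun_prop)).smul (sφ i)
  have pe : ∀ j s, Per fun x => ∑ i, (c j s i - c (j + 1) s i) • Y.B.per (Y.φ i) s x := fun j s =>
    Per.sum _ fun i _ => (per_Bper _ _ s).map _
  have bh : ∀ j s, Y.s0 ≤ s → Y.EE Y.n s (Y.full (W j) (v (j + 1)) s) (Y.full (W j) (v (j + 1)) s)
      ≤ (2 * Cg + 2 * (2 * CW + 2)) * M := fun j s hs' => by
    have sg := h.smd.sm.slice s
    have q1 := Dat.EE_add_le h.base Y.n s (sg.const_smul Y.A⁻¹)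
      (((sW j).add (hv (j + 1)).sm).slice s)
    have q2 := (Step.bd hA h hN (hv j) (hs j).hc (hs j).hyd (hv (j + 1))).ee s hs'
    have q3 := mul_le_mul hN.inv (bg s hs') (Dat.EE_nonneg h.base _ _ _) hM.le
    rw [Dat.EE, Dat.EE, En_smul_smul sg] at q1
    refine le_trans q1 ?_
    unfold Dat.EE at *
    linarith
  have i0 : ∀ j x, Y.full (W j) (v (j + 1)) Y.s0 x = Y.Pt (W j Y.s0 x) := fun j x => by
    rw [full, (hs j).init, sub_apply, (hs j).hyd.hyd]
    abel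
  have i1 : ∀ j x, Y.full (W j) (v (j + 1)) Y.s0 x
      = ∑ i, Y.aa (c j) i • Y.Pt (Y.B.per (Y.ψ i) Y.s0 x) := fun j x => by
    simp only [i0, (hs j).hyd.init, map_sum, map_smul]
  have bc : ∀ j s, Y.s0 ≤ s → ∀ i, |c j s i| ≤ Y.C0 / 2 * √(CK * M) * Real.exp (-Y.δ * s) :=
    fun j s hs' i => by rw [(hs j).hc]; exact Dat.cc_bd hA h.base hCK.le hK le_rfl (hv j) hs' i
  refine ⟨fun j => Y.full (W j) (v (j + 1)), fun j s x => Y.A⁻¹ • Y.gc' s x + (W' j s x + u' j s x),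
    fun j => Y.full (W j) (v j), fun j s x => ∑ i, (c j s i - c (j + 1) s i) • Y.B.per (Y.φ i) s x,
    ⟨fun j => (h.smd.const_smul _).add ((hs j).hyd.smd.add (hs j).kin.smd), fun j => sh j j, se,
      fun j => ph j _, fun j s i x => ?_, fun j => ph j j, pe, fun j s hs' x => ?_,
      fun j s hs' x => ?_, fun s1 η hη => ?_, ⟨_, _, fun i => (sψ i).clm Y.Pt, fun j => ⟨_, i1 j⟩⟩,
      fun j x V => ?_⟩, fun s1 => ⟨_, fun j s hs' u hu x => (Dat.small_of hS h.s0_ge hs' (by omega)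
        ((sh j _).slice s) (ph j _ s) hu x).trans (mul_le_mul_of_nonneg_left
          (mul_le_mul_of_nonneg_left (bh j s hs'.1) hCS.le) (by positivity))⟩,
    _, _, fun i => Y.B.per (Y.φ i), fun i => Y.B.per (Y.ψ i) Y.s0,
    fun i x => Y.Pt (Y.B.per (Y.ψ i) Y.s0 x), W, W', fun j => c j,
    fun j s i => c j s i - c (j + 1) s i, fun j => Y.aa (c j), (C5 + 2) * (Y.C0 / 2 * √(CK * M)),
    sφ, fun i => per_Bper _ _, fun i => ⟨sψ i, per_Bper _ _ _, (sψ i).clm _,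
      (per_Bper _ _ _).map _⟩, fun j => ⟨(hs j).hyd.smd, (hs j).hyd.per, (hs j).hyd.per',
      (hs j).hyd.hyd, fun i => ?_, fun x => ⟨(hs j).hyd.init x, i1 j x⟩, fun s hs' =>
        ⟨fun i => ?_, fun x => ⟨(hs j).hyd.eqn s hs' x, ?_, rfl⟩⟩⟩⟩
  · simp only [h.per' s i x, (hs j).hyd.per' s i x, (hs j).kin.per' s i x]
  · have sg := h.smd.sm.slice s
    have e1 := (hs j).kin.eqn s hs' x
    have e2 := (hs j).hyd.eqn s hs' x
    have e3 : (Y.A * Y.B.k1 s x) • Y.A⁻¹ • Y.Q.L (Y.gc s x) = Y.B.k1 s x • Y.Q.L (Y.gc s x) := by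
      rw [smul_smul]; congr 1; field_simp
    have e4 : (Y.B.fld s).tr (Y.full (W j) (v (j + 1)) s) x = _ :=
      Lin.tr_add _ (sg.const_smul Y.A⁻¹).dif (((sW j).add (hv (j + 1)).sm).dif s) x
    rw [e4, Lin.tr_smul _ sg.dif, Lin.tr_add _ ((sW j).dif s) ((hv (j + 1)).sm.dif s), src,
      eq_sub_of_add_eq e2, eq_sub_of_add_eq (eq_sub_of_add_eq (eq_sub_of_add_eq e1))]
    simp only [sub_smul, sum_sub_distrib, (hs (j + 1)).hc]
    rw [full, map_add, map_add, L_hyd _ ((hs j).hyd.hyd s x), smul_add, map_smul, e3, frc, S1,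
      Dat.mic]
    module
  · have := Dat.small_of (L := 0) (N := N) (u := []) hS h.s0_ge ⟨hs', le_rfl⟩ (by omega)
      ((sh j (j + 1)).slice s) (ph j _ s) le_rfl x
    rw [mul_zero, pow_zero, one_mul] at this
    exact this.trans ((mul_le_mul_of_nonneg_left (bh j s hs') hCS.le).trans n9)
  · set T := 2 * CW + 2 + 2 * CK * Y.m ^ 2 * ((Y.C0 / 2) ^ 2 * CK) with hT
    obtain ⟨J, hJ⟩ := pow_unbounded_of_one_lt
      (Real.exp s1 ^ (2 * 2) * (CS * (T * (4 * M))) / η) (one_lt_two (α := ℝ))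
    set a := 4 * M / 2 ^ J with ha
    have a0 : 0 ≤ a := by positivity
    have key : ∀ s ∈ Set.Icc Y.s0 s1, ∀ G, Sm G → Per G → Y.EE Y.n s G G ≤ T * a → SmallN N η G :=
      fun s hs' G hG pG hb u hu x => by
        refine (Dat.small_of hS h.s0_ge hs' (by omega) hG pG hu x).trans ?_
        refine (mul_le_mul_of_nonneg_left (mul_le_mul_of_nonneg_left hb hCS.le)
          (by positivity)).trans ?_
        rw [div_lt_iff₀ hη, ← div_lt_iff₀' (by positivity)] at hJ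
        refine le_trans (le_of_eq ?_) hJ.le
        rw [ha]
        ring
    have t1 : 0 ≤ 2 * CK * Y.m ^ 2 * ((Y.C0 / 2) ^ 2 * CK) * a := by positivity
    have t2 : 0 ≤ CW * a := by positivity
    refine ⟨J, fun j hj l hl s hs' => ⟨key s hs' _ (((sh j _).sub (sh l _)).slice s)
      ((ph j _ s).map₂ (ph l _ s) (· - ·)) ?_, key s hs' _ (((sh j _).sub (sh j _)).slice s)
      ((ph j _ s).map₂ (ph j _ s) (· - ·)) ?_, key s hs' _ ((se j).slice s) (pe j s) ?_⟩⟩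
    · have e : (fun x => Y.full (W j) (v (j + 1)) s x - Y.full (W l) (v (l + 1)) s x)
          = fun x => W j s x - W l s x + (v (j + 1) s x - v (l + 1) s x) :=
        funext fun x => by simp only [full]; abel
      have q1 := Dat.EE_add_le h.base Y.n s (((sW j).sub (sW l)).slice s)
        (((hv (j + 1)).sm.sub (hv (l + 1)).sm).slice s)
      have q2 := (Dat.EE_mono hA h.base (Nat.le_succ _) le_rfl s (((sW j).sub (sW l)).slice s)).trans
        ((contr hA h hN (hv j) (hv l) (hs j) (hs l) (hd J j l hj hl)).1 s hs'.1)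
      have q3 := (hd J (j + 1) (l + 1) (by omega) (by omega)).ee s hs'.1
      rw [e, hT]
      linarith
    · have e : (fun x => Y.full (W j) (v j) s x - Y.full (W j) (v (j + 1)) s x)
          = fun x => v j s x - v (j + 1) s x := funext fun x => by simp only [full]; abel
      have q3 := (hd J j (j + 1) hj (by omega)).ee s hs'.1
      rw [e, hT]
      linarith
    · refine (Dat.EE_fin hA h.base hCK.le hK h.s0_ge hs'.1 (D := Y.C0 / 2 * √(CK * a))
        (by positivity) fun i => ?_).trans ?_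
      · rw [(hs j).hc, (hs (j + 1)).hc,
          ← Dat.cc_sub hA h.base s ((hv j).sm.slice s) ((hv (j + 1)).sm.slice s)]
        exact Dat.cc_bd hA h.base hCK.le hK le_rfl (hd J j (j + 1) hj (by omega)) hs'.1 i
      · rw [mul_pow, Real.sq_sqrt (by positivity), hT]
        linarith
  · have sW0 := (sW j).slice Y.s0
    have q1 := (ip_le_bb (n := 0) (σ := Y.B.sig Y.s0) zero_le_one x).trans
      ((hS _ le_rfl 0 _ (by omega) sW0 ((hs j).hyd.per _) x).1.trans (mul_le_mul_of_nonneg_left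
        ((Dat.EE_mono hA h.base (Nat.le_succ _) le_rfl _ sW0).trans
          (hN.hydro M _ _ _ _ (hv j) (hs j).hc (hs j).hyd _ le_rfl)) hCS.le))
    rw [i0]
    refine (bP _ V).trans (mul_le_mul_of_nonneg_right ?_ (sqM_pos V).le)
    refine abs_le_of_sq_le_sq' ?_ (by norm_num) |>.2
    rw [mul_pow, Real.sq_sqrt (ip_self_nonneg _)]
    linarith [mul_le_mul_of_nonneg_left q1 (sq_nonneg Ce)]
  · refine (ba _ _ (by positivity) (bc j) i).trans ?_
    gcongr
    linarith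
  · have e1 : Real.exp (-Y.δ * s) ≤ 1 :=
      Real.exp_le_one_iff.2 (by nlinarith [h.base.δ_pos, h.s0_ge])
    have d0 : 0 ≤ Y.C0 / 2 * √(CK * M) := by positivity
    have q := fun j => (bc j s hs' i).trans (mul_le_of_le_one_right d0 e1)
    have := mul_nonneg hC5.le d0
    exact ⟨by linarith [q j], (abs_sub _ _).trans (by linarith [q j, q (j + 1)])⟩
  · simp only [full]
    abel

end It

end Pool.Agent.MP_187b32_an.Pic
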